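import Mathlib

open scoped Pointwise
open Set Cardinal

namespace Pool.Agent.P.MP_60ae12_al

universe u

variable {Ω : Type u}

/-- Permutations fixing every point outside `U`. -/
def Supp (U : Set Ω) : Subgroup (Equiv.Perm Ω) where
  carrier := {g | ∀ x, x ∉ U → g x = x}
  one_mem' := fun _ _ => rfl
  mul_mem' := fun {a b} ha hb x hx => by
    show a (b x) = x
    rw [hb x hx, ha x hx]
  inv_mem' := fun {a} ha x hx => by
    have := ha x hx
    exact (Equiv.Perm.inv_eq_iff_eq).2 this.symm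

theorem mem_Supp {U : Set Ω} {g : Equiv.Perm Ω} : g ∈ Supp U ↔ ∀ x, x ∉ U → g x = x := Iff.rfl

theorem Supp_mono {U V : Set Ω} (h : U ⊆ V) : Supp U ≤ Supp V :=
  fun _ hg x hx => hg x (fun hU => hx (h hU))

theorem Supp_univ : Supp (univ : Set Ω) = ⊤ := by
  ext g; simp [mem_Supp]

theorem Supp.maps {U : Set Ω} {g : Equiv.Perm Ω} (hg : g ∈ Supp U) {x : Ω} (hx : x ∈ U) :
    g x ∈ U := by
  by_contra h
  have := hg _ h
  exact h (by rw [g.injective this]; exact hx)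

theorem Supp_conj {H : Subgroup (Equiv.Perm Ω)} {A M : Set Ω} (hA : Supp A ≤ H)
    {h : Equiv.Perm Ω} (hh : h ∈ H) (hM : h '' M ⊆ A) : Supp M ≤ H := by
  intro g hg
  have h1 : h * g * h⁻¹ ∈ Supp A := by
    intro x hx
    have : h⁻¹ x ∉ M := fun hm => hx (hM ⟨_, hm, by simp⟩)
    show h (g (h⁻¹ x)) = x
    rw [hg _ this]; simp
  have h2 := H.mul_mem (H.mul_mem (H.inv_mem hh) (hA h1)) hh
  simpa [mul_assoc] using h2

theorem Supp_image {H : Subgroup (Equiv.Perm Ω)} {A : Set Ω} (hA : Supp A ≤ H)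
    {h : Equiv.Perm Ω} (hh : h ∈ H) : Supp (h '' A) ≤ H := by
  refine Supp_conj hA (H.inv_mem hh) ?_
  rintro _ ⟨_, ⟨x, hx, rfl⟩, rfl⟩
  simpa using hx

theorem exists_bijOn {A B : Set Ω} (h : #A = #B) : ∃ f : Ω → Ω, BijOn f A B := by
  classical
  obtain ⟨e⟩ := Cardinal.eq.1 h
  refine ⟨fun x => if hx : x ∈ A then e ⟨x, hx⟩ else x, ?_, ?_, ?_⟩
  · intro x hx; simp [hx]
  · intro x hx y hy hxy
    simp only [hx, hy, dif_pos] at hxy
    have := e.injective (Subtype.ext hxy)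
    exact congrArg Subtype.val this
  · intro y hy
    refine ⟨(e.symm ⟨y, hy⟩ : A), (e.symm ⟨y, hy⟩).2, ?_⟩
    simp

theorem exists_extend {U A B : Set Ω} {f : Ω → Ω} (hf : BijOn f A B) (hA : A ⊆ U) (hB : B ⊆ U)
    (hc : #(U \ A : Set Ω) = #(U \ B : Set Ω)) : ∃ g ∈ Supp U, EqOn g f A := by
  classical
  obtain ⟨k, hk⟩ := exists_bijOn hc
  let p : Ω → Ω := fun x => if x ∈ A then f x else if x ∈ U then k x else x
  have pA : ∀ x ∈ A, p x = f x := fun x hx => by simp [p, hx]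
  have pU : ∀ x ∈ U \ A, p x = k x := fun x hx => by simp [p, hx.1, hx.2]
  have pO : ∀ x, x ∉ U → p x = x := fun x hx => by
    have : x ∉ A := fun h => hx (hA h)
    simp [p, hx, this]
  have tri : ∀ x, x ∈ A ∨ x ∈ U \ A ∨ x ∉ U := fun x => by
    by_cases h1 : x ∈ A
    · exact Or.inl h1
    · by_cases h2 : x ∈ U
      · exact Or.inr (Or.inl ⟨h2, h1⟩)
      · exact Or.inr (Or.inr h2)
  have hinj : Function.Injective p := by
    intro x y hxy
    rcases tri x with hx | hx | hx <;> rcases tri y with hy | hy | hy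
    · rw [pA x hx, pA y hy] at hxy; exact hf.injOn hx hy hxy
    · rw [pA x hx, pU y hy] at hxy
      exact absurd (hxy ▸ hf.mapsTo hx) (hk.mapsTo hy).2
    · rw [pA x hx, pO y hy] at hxy
      exact absurd (hxy ▸ hB (hf.mapsTo hx)) hy
    · rw [pU x hx, pA y hy] at hxy
      exact absurd (hxy ▸ hf.mapsTo hy) (hk.mapsTo hx).2
    · rw [pU x hx, pU y hy] at hxy; exact hk.injOn hx hy hxy
    · rw [pU x hx, pO y hy] at hxy
      exact absurd (hxy ▸ (hk.mapsTo hx).1) hy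
    · rw [pO x hx, pA y hy] at hxy
      exact absurd (hxy ▸ hB (hf.mapsTo hy)) hx
    · rw [pO x hx, pU y hy] at hxy
      exact absurd (hxy ▸ (hk.mapsTo hy).1) hx
    · rw [pO x hx, pO y hy] at hxy; exact hxy
  have hsurj : Function.Surjective p := by
    intro y
    by_cases h1 : y ∈ B
    · obtain ⟨x, hx, rfl⟩ := hf.surjOn h1
      exact ⟨x, pA x hx⟩
    · by_cases h2 : y ∈ U
      · obtain ⟨x, hx, rfl⟩ := hk.surjOn ⟨h2, h1⟩
        exact ⟨x, pU x hx⟩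
      · exact ⟨y, pO y h2⟩
  exact ⟨Equiv.ofBijective p ⟨hinj, hsurj⟩, pO, pA⟩

theorem exists_move {U A B : Set Ω} (hA : A ⊆ U) (hB : B ⊆ U) (h : #A = #B)
    (hc : #(U \ A : Set Ω) = #(U \ B : Set Ω)) : ∃ g ∈ Supp U, g '' A = B := by
  obtain ⟨f, hf⟩ := exists_bijOn h
  obtain ⟨g, hg, he⟩ := exists_extend hf hA hB hc
  exact ⟨g, hg, by rw [he.image_eq, hf.image_eq]⟩

theorem exists_swap {P : Set Ω} {f : Ω → Ω} (hf : InjOn f P) (hd : Disjoint P (f '' P)) :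
    ∃ g ∈ Supp (P ∪ f '' P), EqOn g f P ∧ ∀ x ∈ P, g (f x) = x := by
  classical
  rcases P.eq_empty_or_nonempty with rfl | ⟨x0, hx0⟩
  · exact ⟨1, Subgroup.one_mem _, by simp, by simp⟩
  have : Nonempty Ω := ⟨x0⟩
  let p : Ω → Ω := fun x => if x ∈ P then f x else if x ∈ f '' P then Function.invFunOn f P x else x
  have pA : ∀ x ∈ P, p x = f x := fun x hx => by simp only [p, hx, if_true]
  have pB : ∀ x ∈ P, p (f x) = x := fun x hx => by
    have h1 : f x ∈ f '' P := mem_image_of_mem f hx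
    have h2 : f x ∉ P := fun h => (disjoint_left.1 hd) h h1
    simp only [p, h1, h2, if_true, if_false]
    exact hf.leftInvOn_invFunOn hx
  have pO : ∀ x, x ∉ P ∪ f '' P → p x = x := fun x hx => by
    have h1 : x ∉ P := fun h => hx (Or.inl h)
    have h2 : x ∉ f '' P := fun h => hx (Or.inr h)
    simp only [p, h1, h2, if_false]
  have hinv : Function.Involutive p := by
    intro x
    by_cases h1 : x ∈ P
    · rw [pA x h1, pB x h1]
    · by_cases h2 : x ∈ f '' P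
      · obtain ⟨y, hy, rfl⟩ := h2
        rw [pB y hy, pA y hy]
      · have : x ∉ P ∪ f '' P := fun h => h.elim h1 h2
        rw [pO x this, pO x this]
  exact ⟨hinv.toPerm p, pO, pA, pB⟩

theorem exists_sub {A : Set Ω} {c : Cardinal.{u}} (h : c ≤ #A) : ∃ B ⊆ A, #B = c :=
  Cardinal.le_mk_iff_exists_subset.1 h

theorem exists_split {A : Set Ω} (hA : ℵ₀ ≤ #A) :
    ∃ P ⊆ A, #P = #A ∧ #(A \ P : Set Ω) = #A := by
  have h : #(A ⊕ A) = #A := by simp [Cardinal.add_eq_self hA]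
  obtain ⟨e⟩ := Cardinal.eq.1 h
  let i1 : A → Ω := fun a => (e (Sum.inl a) : Ω)
  let i2 : A → Ω := fun a => (e (Sum.inr a) : Ω)
  have h1 : Function.Injective i1 := fun a b hab =>
    Sum.inl_injective (e.injective (Subtype.ext hab))
  have h2 : Function.Injective i2 := fun a b hab =>
    Sum.inr_injective (e.injective (Subtype.ext hab))
  refine ⟨range i1, ?_, Cardinal.mk_range_eq _ h1, ?_⟩
  · rintro _ ⟨a, rfl⟩; exact (e _).2
  · apply le_antisymm (Cardinal.mk_le_mk_of_subset sdiff_subset)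
    rw [← Cardinal.mk_range_eq _ h2]
    apply Cardinal.mk_le_mk_of_subset
    rintro _ ⟨a, rfl⟩
    refine ⟨(e _).2, ?_⟩
    rintro ⟨b, hb⟩
    have := e.injective (Subtype.ext hb)
    exact Sum.inl_ne_inr this

theorem union_lt {A B : Set Ω} {c : Cardinal.{u}} (hc : ℵ₀ ≤ c) (hA : #A < c) (hB : #B < c) :
    #(A ∪ B : Set Ω) < c :=
  (Cardinal.mk_union_le A B).trans_lt (Cardinal.add_lt_of_lt hc hA hB)

theorem union_le {A B : Set Ω} {c : Cardinal.{u}} (hc : ℵ₀ ≤ c) (hA : #A ≤ c) (hB : #B ≤ c) :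
    #(A ∪ B : Set Ω) ≤ c :=
  (Cardinal.mk_union_le A B).trans (Cardinal.add_le_of_le hc hA hB)

theorem sub_lt {A B : Set Ω} {c : Cardinal.{u}} (h : A ⊆ B) (hB : #B < c) : #A < c :=
  (Cardinal.mk_le_mk_of_subset h).trans_lt hB

theorem sub_le {A B : Set Ω} {c : Cardinal.{u}} (h : A ⊆ B) (hB : #B ≤ c) : #A ≤ c :=
  (Cardinal.mk_le_mk_of_subset h).trans hB

/-- Removing a set does not change the size if an infinite set at least as big remains. -/
theorem diff_eq {D P Q : Set Ω} (hQ : Q ⊆ D \ P) (hi : ℵ₀ ≤ #Q) (hPQ : #P ≤ #Q) :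
    #(D \ P : Set Ω) = #D := by
  apply le_antisymm (Cardinal.mk_le_mk_of_subset sdiff_subset)
  have h1 : #Q ≤ #(D \ P : Set Ω) := Cardinal.mk_le_mk_of_subset hQ
  refine sub_le (B := (D \ P) ∪ P) (fun x hx => ?_) (union_le (hi.trans h1) le_rfl (hPQ.trans h1))
  by_cases h : x ∈ P
  · exact Or.inr h
  · exact Or.inl ⟨hx, h⟩

theorem diff_eq_of_lt {D P : Set Ω} (hi : ℵ₀ ≤ #D) (h : #P < #D) : #(D \ P : Set Ω) = #D := by
  apply le_antisymm (Cardinal.mk_le_mk_of_subset sdiff_subset)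
  by_contra hlt
  rw [not_le] at hlt
  have := union_lt hi hlt h
  refine absurd (sub_lt (fun x hx => ?_) this) (lt_irrefl #D)
  by_cases h : x ∈ P
  · exact Or.inr h
  · exact Or.inl ⟨hx, h⟩

/-- A small subset whose removal keeps the size. -/
theorem exists_sub_keep {A : Set Ω} {c : Cardinal.{u}} (hA : ℵ₀ ≤ #A) (h : c ≤ #A) :
    ∃ B ⊆ A, #B = c ∧ #(A \ B : Set Ω) = #A := by
  obtain ⟨P, hP, h1, h2⟩ := exists_split hA
  obtain ⟨B, hB, h3⟩ := exists_sub (h1 ▸ h : c ≤ #P)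
  refine ⟨B, hB.trans hP, h3, ?_⟩
  apply le_antisymm (Cardinal.mk_le_mk_of_subset sdiff_subset)
  rw [← h2]
  exact Cardinal.mk_le_mk_of_subset (sdiff_subset_sdiff_right hB)

theorem mk_img (g : Equiv.Perm Ω) (A : Set Ω) : #(g '' A : Set Ω) = #A :=
  Cardinal.mk_image_eq g.injective

theorem gen_lemma {H : Subgroup (Equiv.Perm Ω)} {U W : Set Ω} (hU : ℵ₀ ≤ #U) (hW : W ⊆ U)
    (hWU : #W = #U) (h : ∀ M ⊆ U, #(W \ M : Set Ω) = #U → Supp M ≤ H) : Supp U ≤ H := by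
  intro g hg
  have key : ∃ W1 ⊆ W, #W1 = #U ∧ #(W \ (W1 ∪ g '' W1) : Set Ω) = #U := by
    obtain ⟨P, hP, h1, h2⟩ := exists_split (hWU ▸ hU : ℵ₀ ≤ #W)
    by_cases hc : #((W \ P) \ (g '' P) : Set Ω) = #U
    · exact ⟨P, hP, h1.trans hWU, by rw [← sdiff_sdiff]; exact hc⟩
    · have h3 : #((W \ P) ∩ (g '' P) : Set Ω) = #U := by
        apply le_antisymm (sub_le (inter_subset_left.trans (sdiff_subset.trans hW)) le_rfl)
        by_contra hlt
        rw [not_le] at hlt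
        have h4 : #((W \ P) \ (g '' P) : Set Ω) < #U :=
          lt_of_le_of_ne (sub_le (sdiff_subset.trans (sdiff_subset.trans hW)) le_rfl) hc
        have := union_lt hU hlt h4
        rw [inter_union_sdiff, h2, hWU] at this
        exact lt_irrefl _ this
      obtain ⟨Q, hQ, h4, h5⟩ := exists_split (h3 ▸ hU : ℵ₀ ≤ #((W \ P) ∩ (g '' P) : Set Ω))
      have hsub : (g⁻¹ : Equiv.Perm Ω) '' Q ⊆ P := by
        rintro _ ⟨y, hy, rfl⟩
        obtain ⟨x, hx, rfl⟩ := (hQ hy).2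
        simpa using hx
      refine ⟨(g⁻¹ : Equiv.Perm Ω) '' Q, hsub.trans hP, by rw [mk_img, h4, h3], ?_⟩
      apply le_antisymm (sub_le (sdiff_subset.trans hW) le_rfl)
      rw [← h3, ← h5]
      apply Cardinal.mk_le_mk_of_subset
      rintro x ⟨⟨⟨hx1, hx2⟩, -⟩, hx3⟩
      refine ⟨hx1, ?_⟩
      rintro (hx | ⟨_, ⟨y, hy, rfl⟩, rfl⟩)
      · exact hx2 (hsub hx)
      · exact hx3 (by simpa using hy)
  obtain ⟨W1, hW1, h1, h2⟩ := key
  obtain ⟨W3, hW3, h3, h4⟩ := exists_split (h2 ▸ hU : ℵ₀ ≤ #(W \ (W1 ∪ g '' W1) : Set Ω))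
  have hb : BijOn g W1 (g '' W1) := (g.injective.injOn).bijOn_image
  have hA : W1 ⊆ U \ W3 := fun x hx => ⟨hW (hW1 hx), fun h3 => (hW3 h3).2 (Or.inl hx)⟩
  have hB : g '' W1 ⊆ U \ W3 := by
    rintro _ ⟨x, hx, rfl⟩
    exact ⟨Supp.maps hg (hW (hW1 hx)), fun h3 => (hW3 h3).2 (Or.inr ⟨x, hx, rfl⟩)⟩
  have hc : ∀ X : Set Ω, X ⊆ W1 ∪ g '' W1 → #((U \ W3) \ X : Set Ω) = #U := by
    intro X hX
    apply le_antisymm (sub_le (sdiff_subset.trans sdiff_subset) le_rfl)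
    rw [← h2, ← h4]
    apply Cardinal.mk_le_mk_of_subset
    rintro x ⟨⟨hx1, hx2⟩, hx3⟩
    exact ⟨⟨hW hx1, hx3⟩, fun hx => hx2 (hX hx)⟩
  obtain ⟨k, hk, hkg⟩ := exists_extend hb hA hB
    ((hc _ subset_union_left).trans (hc _ subset_union_right).symm)
  have hkH : k ∈ H := by
    refine h (U \ W3) sdiff_subset ?_ hk
    apply le_antisymm (sub_le (sdiff_subset.trans hW) le_rfl)
    rw [← h2, ← h3]
    apply Cardinal.mk_le_mk_of_subset
    intro x hx
    exact ⟨(hW3 hx).1, fun h' => h'.2 hx⟩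
  have hk2 : k⁻¹ * g ∈ H := by
    refine h (U \ W1) sdiff_subset ?_ ?_
    · apply le_antisymm (sub_le (sdiff_subset.trans hW) le_rfl)
      rw [← h1]
      apply Cardinal.mk_le_mk_of_subset
      intro x hx
      exact ⟨hW1 hx, fun h' => h'.2 hx⟩
    · intro x hx
      show (k⁻¹ : Equiv.Perm Ω) (g x) = x
      by_cases hx1 : x ∈ W1
      · rw [← hkg hx1]; simp
      · have hxU : x ∉ U := fun h' => hx ⟨h', hx1⟩
        rw [hg x hxU]
        exact (Supp (U \ W3)).inv_mem hk x (fun h' => hxU h'.1)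
  have := H.mul_mem hkH hk2
  simpa using this

theorem union_lemma {H : Subgroup (Equiv.Perm Ω)} {A C : Set Ω} (hA : Supp A ≤ H)
    (hC : Supp C ≤ H) (hi : ℵ₀ ≤ #(A ∩ C : Set Ω)) (hle : #(A \ C : Set Ω) ≤ #(A ∩ C : Set Ω)) :
    Supp (A ∪ C) ≤ H := by
  have hAC : #(A ∩ C : Set Ω) ≤ #C := sub_le inter_subset_right le_rfl
  have hCi : ℵ₀ ≤ #C := hi.trans hAC
  have hU : #C = #(A ∪ C : Set Ω) := by
    apply le_antisymm (sub_le subset_union_right le_rfl)
    rw [← sdiff_union_self]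
    exact union_le hCi (hle.trans hAC) le_rfl
  refine gen_lemma (hU ▸ hCi) subset_union_right hU ?_
  intro M hM hCM
  rw [← hU] at hCM
  obtain ⟨T, hT, hT1, hT2⟩ := exists_sub_keep hi hle
  have hTC : T ⊆ C := hT.trans inter_subset_right
  have hT3 : #(C \ T : Set Ω) = #C :=
    diff_eq (Q := (A ∩ C) \ T) (sdiff_subset_sdiff_left inter_subset_right) (hT2 ▸ hi)
      (by rw [hT2, hT1]; exact hle)
  obtain ⟨R, hR, hR1, hR2⟩ := exists_sub_keep (hCM ▸ hCi : ℵ₀ ≤ #(C \ M : Set Ω))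
    (c := #T) (by rw [hCM, hT1]; exact hle.trans hAC)
  have hR3 : #(C \ R : Set Ω) = #C := by
    apply le_antisymm (sub_le sdiff_subset le_rfl)
    rw [← hCM, ← hR2]
    exact sub_le (sdiff_subset_sdiff_left sdiff_subset) le_rfl
  obtain ⟨k, hk, hkR⟩ := exists_move (hR.trans sdiff_subset) hTC hR1 (hR3.trans hT3.symm)
  obtain ⟨f, hf⟩ := exists_bijOn hT1.symm
  have hd : Disjoint (A \ C) (f '' (A \ C)) := by
    rw [hf.image_eq]
    exact disjoint_left.2 fun x hx hx2 => hx.2 (hTC hx2)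
  obtain ⟨s, hs, hs1, -⟩ := exists_swap hf.injOn hd
  rw [hf.image_eq] at hs
  have hsA : s ∈ Supp A :=
    Supp_mono (union_subset sdiff_subset (hT.trans inter_subset_left)) hs
  refine Supp_conj hC (H.mul_mem (hA hsA) (hC hk)) ?_
  rintro _ ⟨x, hx, rfl⟩
  show s (k x) ∈ C
  by_cases hxC : x ∈ C
  · have h1 : k x ∈ C := Supp.maps hk hxC
    have h2 : k x ∉ T := by
      rw [← hkR]
      rintro ⟨y, hy, hyx⟩
      rw [k.injective hyx] at hy
      exact (hR hy).2 hx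
    rw [hs (k x) (fun h => h.elim (fun h => h.2 h1) h2)]
    exact h1
  · have hxA : x ∈ A := (hM hx).resolve_right hxC
    rw [hk x hxC, hs1 ⟨hxA, hxC⟩]
    exact hTC (hf.mapsTo ⟨hxA, hxC⟩)

end Pool.Agent.P.MP_60ae12_al
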