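import Mathlib

/-! Definitions for filters with maximal stabilizer. -/

open scoped Pointwise symmDiff

namespace Pool.Agent.P.MP_60ae12_al

universe u

variable {Ω : Type u}

/-- The stabilizer of the family of members of `F` in the symmetric group. -/
def stab (F : Filter Ω) : Subgroup (Equiv.Perm Ω) :=
  MulAction.stabilizer (Equiv.Perm Ω) F.sets

/-- The depth: least cardinality of a member of `F`. -/
noncomputable def depth (F : Filter Ω) : Cardinal.{u} :=
  sInf {c : Cardinal.{u} | ∃ Δ ∈ F, Cardinal.mk Δ = c}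

/-- `F` is closed under changes of size less than the depth. -/
def Closed (F : Filter Ω) : Prop :=
  ∀ S ∈ F, ∀ T : Set Ω, Cardinal.mk (S ∆ T : Set Ω) < depth F → T ∈ F

/-- `Φ` is an almost intersection of `F`. -/
def AlmostInter (F : Filter Ω) (Φ : Set Ω) : Prop :=
  ∀ Δ ∈ F, Cardinal.mk (Φ \ Δ : Set Ω) < depth F

/-- Closed, with no almost intersection whose cardinality is the depth. -/
def Superclosed (F : Filter Ω) : Prop :=
  Closed F ∧ ¬ ∃ Φ : Set Ω, AlmostInter F Φ ∧ Cardinal.mk Φ = depth F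

/-- `f` embeds `B` into `A` and a subset of `B` is `F`-small exactly when its image is. -/
def LocEmb (F : Filter Ω) (f : Ω → Ω) (B A : Set Ω) : Prop :=
  Set.InjOn f B ∧ Set.MapsTo f B A ∧ ∀ C : Set Ω, C ⊆ B → (Cᶜ ∈ F ↔ (f '' C)ᶜ ∈ F)

/-- Weak homogeneity: for each set `A` that is not `F`-small, some member of `F` is a finite
union of sets that embed into `A`. -/
def Homog (F : Filter Ω) : Prop :=
  ∀ A : Set Ω, Aᶜ ∉ F → ∃ (n : ℕ) (B : Fin n → Set Ω) (f : Fin n → Ω → Ω),
    (⋃ i, B i) ∈ F ∧ ∀ i, LocEmb F (f i) (B i) A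

end Pool.Agent.P.MP_60ae12_al
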