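import Pool.Agent.P.MP_60ae12_al.Main
import Pool.Agent.P.MP_60ae12_al.Defs

open scoped Pointwise symmDiff
open Set
open Cardinal hiding univ

namespace Pool.Agent.P.MP_60ae12_al

universe u

variable {Ω : Type u}

/-- The dual ideal of a filter. -/
def dual (F : Filter Ω) : Set (Set Ω) := {A | Aᶜ ∈ F}

theorem dual_idl (F : Filter Ω) : IsIdl (dual F) where
  empty := by simp [dual]
  mono := fun h hB => Filter.mem_of_superset hB (compl_subset_compl.2 h)
  union := fun hA hB => by
    show (_ ∪ _)ᶜ ∈ F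
    rw [compl_union]; exact Filter.inter_mem hA hB

theorem dual_proper {F : Filter Ω} (hF : F.NeBot) : univ ∉ dual F := by
  simp [dual]

theorem mem_iff_dual {F : Filter Ω} {D : Set Ω} : D ∈ F ↔ Dᶜ ∈ dual F := by
  simp [dual]

theorem stab_eq (F : Filter Ω) : stab F = St (dual F) := by
  apply le_antisymm
  · refine le_St_of fun g hg A hA => ?_
    show (g '' A)ᶜ ∈ F
    rw [← image_compl_eq g.bijective]
    exact St.img (I := F.sets) hg hA
  · refine le_St_of (I := F.sets) fun g hg A hA => ?_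
    have := St.img hg (mem_iff_dual.1 hA)
    rw [image_compl_eq g.bijective] at this
    exact mem_iff_dual.2 this

theorem forall_compl {P : Set Ω → Prop} : (∀ A, P A) ↔ ∀ D, P Dᶜ :=
  ⟨fun h D => h _, fun h A => by simpa using h Aᶜ⟩

theorem homog_iff (F : Filter Ω) : Homog F ↔ HomI (dual F) := by
  simp only [Homog, HomI, LocEmb, dual, mem_ofPred_eq, compl_compl]

theorem exists_depth (F : Filter Ω) : ∃ E ∈ F, #E = depth F :=
  csInf_mem (s := {c : Cardinal.{u} | ∃ Δ ∈ F, Cardinal.mk Δ = c}) ⟨_, univ, Filter.univ_mem, rfl⟩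

theorem depth_le {F : Filter Ω} {D : Set Ω} (h : D ∈ F) : depth F ≤ #D :=
  csInf_le' ⟨D, h, rfl⟩

theorem good_of_superclosed {F : Filter Ω} (hF : F.NeBot) (h : Superclosed F) :
    ∃ E, Good (dual F) (depth F) E ∧ Tall (dual F) (depth F) := by
  obtain ⟨E, hE, hE'⟩ := exists_depth F
  refine ⟨E, ⟨dual_idl F, ?_, dual_proper hF, ?_, hE'.le, mem_iff_dual.1 hE⟩, ?_⟩
  · by_contra hlt
    rw [not_le, ← hE', Cardinal.lt_aleph0_iff_set_finite] at hlt
    refine h.2 ⟨E, fun D hD => ?_, hE'⟩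
    have h1 : depth F ≤ #(E ∩ D : Set Ω) := depth_le (Filter.inter_mem hE hD)
    have h2 : E ∩ D = E := by
      refine Set.eq_of_subset_of_ncard_le inter_subset_left ?_ hlt
      rw [← hE', ← Set.cast_ncard hlt, ← Set.cast_ncard (hlt.subset inter_subset_left)] at h1
      exact_mod_cast h1
    have h3 : E \ D = ∅ := by
      rw [sdiff_eq_empty]; exact inter_eq_left.1 h2
    rw [h3, Cardinal.mk_eq_zero, ← hE', pos_iff_ne_zero, Cardinal.mk_set_ne_zero_iff]
    exact hF.nonempty_of_mem hE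
  · intro A hA
    refine h.1 univ Filter.univ_mem _ ?_
    have : (univ : Set Ω) ∆ Aᶜ = A := by
      ext x; simp [mem_symmDiff]
    rw [this]; exact hA
  · intro A hA
    obtain ⟨Φ, h1, h2⟩ := exists_sub hA
    have : ¬ AlmostInter F Φ := fun h' => h.2 ⟨Φ, h', h2⟩
    unfold AlmostInter at this
    push Not at this
    obtain ⟨D, hD, hD'⟩ := this
    exact ⟨Φ \ D, sdiff_subset.trans h1,
      (dual_idl F).mono (fun x hx => hx.2) (mem_iff_dual.1 hD), hD'⟩

theorem superclosed_of_good {J : Set (Set Ω)} {ν : Cardinal.{u}} {E : Set Ω} (h : Good J ν E)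
    (ht : Tall J ν) : ∃ F : Filter Ω, F.NeBot ∧ dual F = J ∧ depth F = ν ∧ Superclosed F := by
  let F : Filter Ω :=
    { sets := {D | Dᶜ ∈ J}
      univ_sets := by simpa using h.idl.empty
      sets_of_superset := fun h1 h2 => h.idl.mono (compl_subset_compl.2 h2) h1
      inter_sets := fun h1 h2 => by
        show (_ ∩ _)ᶜ ∈ J
        rw [compl_inter]; exact h.idl.union h1 h2 }
  have hm : ∀ D, D ∈ F ↔ Dᶜ ∈ J := fun D => Iff.rfl
  have hd : depth F = ν := by
    apply le_antisymm ((depth_le (F := F) h.hEc).trans h.hE)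
    obtain ⟨D, hD, hD'⟩ := exists_depth F
    by_contra hlt
    have := h.idl.union (h.small D (hD' ▸ not_le.1 hlt)) ((hm D).1 hD)
    rw [union_compl_self] at this
    exact h.proper this
  refine ⟨F, ⟨fun hb => ?_⟩, ?_, hd, ?_, ?_⟩
  · have : (∅ : Set Ω) ∈ F := by rw [hb]; exact Filter.mem_bot
    rw [hm, compl_empty] at this
    exact h.proper this
  · ext A; simp [dual, hm]
  · intro S hS T hT
    rw [hd] at hT
    rw [hm] at hS ⊢
    refine h.idl.mono (fun x hx => ?_) (h.idl.union hS (h.small _ hT))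
    by_cases h' : x ∈ S
    · exact Or.inr (Or.inl ⟨h', hx⟩)
    · exact Or.inl h'
  · rintro ⟨Φ, h1, h2⟩
    obtain ⟨A, hA, hA1, hA2⟩ := ht Φ (by rw [h2, hd])
    have := h1 Aᶜ (by rw [hm, compl_compl]; exact hA1)
    rw [hd] at this
    refine absurd (sub_lt (A := A) ?_ this) (not_lt.2 hA2)
    exact fun x hx => ⟨hA hx, fun h' => h' hx⟩

end Pool.Agent.P.MP_60ae12_al
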