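import Pool.Agent.P.MP_60ae12_al.Basic

open scoped Pointwise
open Set
open Cardinal hiding univ

namespace Pool.Agent.P.MP_60ae12_al

universe u

variable {Ω : Type u}

/-- An ideal of subsets. -/
structure IsIdl (I : Set (Set Ω)) : Prop where
  empty : ∅ ∈ I
  mono : ∀ {A B : Set Ω}, A ⊆ B → B ∈ I → A ∈ I
  union : ∀ {A B : Set Ω}, A ∈ I → B ∈ I → A ∪ B ∈ I

/-- Stabilizer of a family of sets. -/
abbrev St (I : Set (Set Ω)) : Subgroup (Equiv.Perm Ω) :=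
  MulAction.stabilizer (Equiv.Perm Ω) I

theorem smul_eq_img (g : Equiv.Perm Ω) (A : Set Ω) : g • A = g '' A := rfl

theorem img_inv_img (g : Equiv.Perm Ω) (A : Set Ω) : (g⁻¹ : Equiv.Perm Ω) '' (g '' A) = A := by
  ext x; simp

theorem img_img_inv (g : Equiv.Perm Ω) (A : Set Ω) : g '' ((g⁻¹ : Equiv.Perm Ω) '' A) = A := by
  ext x; simp

theorem St.img {I : Set (Set Ω)} {g : Equiv.Perm Ω} (hg : g ∈ St I) {A : Set Ω} (hA : A ∈ I) :
    g '' A ∈ I := by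
  have h : g • I = I := hg
  rw [← h, ← smul_eq_img]
  exact smul_mem_smul_set hA

theorem St.of_img {I : Set (Set Ω)} {g : Equiv.Perm Ω} (hg : g ∈ St I) {A : Set Ω}
    (hA : g '' A ∈ I) : A ∈ I := by
  have := St.img ((St I).inv_mem hg) hA
  rwa [img_inv_img] at this

theorem mem_St_of {I : Set (Set Ω)} {g : Equiv.Perm Ω} (h1 : ∀ A ∈ I, g '' A ∈ I)
    (h2 : ∀ A ∈ I, (g⁻¹ : Equiv.Perm Ω) '' A ∈ I) : g ∈ St I := by
  show g • I = I
  ext A
  constructor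
  · rintro ⟨B, hB, rfl⟩
    exact h1 B hB
  · intro hA
    exact ⟨_, h2 A hA, img_img_inv g A⟩

theorem le_St_of {I : Set (Set Ω)} {G : Subgroup (Equiv.Perm Ω)}
    (h : ∀ g ∈ G, ∀ A ∈ I, g '' A ∈ I) : G ≤ St I :=
  fun g hg => mem_St_of (h g hg) (h _ (G.inv_mem hg))

theorem IsIdl.supp_le {I : Set (Set Ω)} (hI : IsIdl I) {A : Set Ω} (hA : A ∈ I) :
    Supp A ≤ St I := by
  refine le_St_of fun g hg B hB => hI.mono ?_ (hI.union hA hB)
  rintro _ ⟨x, hx, rfl⟩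
  by_cases h : x ∈ A
  · exact Or.inl (Supp.maps hg h)
  · rw [hg x h]; exact Or.inr hx

theorem IsIdl.finite {I : Set (Set Ω)} (hI : IsIdl I) {B : Set Ω} (hB : B.Finite)
    (h : ∀ x ∈ B, ({x} : Set Ω) ∈ I) : B ∈ I := by
  induction B, hB using Set.Finite.induction_on with
  | empty => exact hI.empty
  | @insert a s _ _ ih =>
    rw [insert_eq]
    exact hI.union (h a (mem_insert _ _)) (ih fun x hx => h x (mem_insert_of_mem _ hx))

theorem IsIdl.iUnion {I : Set (Set Ω)} (hI : IsIdl I) {ι : Type*} [Finite ι] {B : ι → Set Ω}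
    (h : ∀ i, B i ∈ I) : (⋃ i, B i) ∈ I := by
  classical
  have := Fintype.ofFinite ι
  have key : ∀ s : Finset ι, (⋃ i ∈ s, B i) ∈ I := by
    intro s
    induction s using Finset.induction_on with
    | empty => simpa using hI.empty
    | insert a s _ ih => rw [Finset.set_biUnion_insert]; exact hI.union (h a) ih
  simpa using key Finset.univ

theorem swap_mem_Supp [DecidableEq Ω] {D : Set Ω} {a b : Ω} (ha : a ∈ D) (hb : b ∈ D) :
    Equiv.swap a b ∈ Supp D := fun _ hx =>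
  Equiv.swap_apply_of_ne_of_ne (fun h => hx (h ▸ ha)) (fun h => hx (h ▸ hb))

/-- An ideal invariant under all permutations of `D` is determined on `D` by size. -/
theorem IsIdl.of_le {I : Set (Set Ω)} (hI : IsIdl I) {D A B : Set Ω} (hD : Supp D ≤ St I)
    (hA : A ∈ I) (hAD : A ⊆ D) (hBD : B ⊆ D) (h : #B ≤ #A) : B ∈ I := by
  classical
  by_cases hB : ℵ₀ ≤ #B
  · obtain ⟨A', hA', h1⟩ := exists_sub h
    obtain ⟨P, hP, h2, h3⟩ := exists_split (h1 ▸ hB : ℵ₀ ≤ #A')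
    obtain ⟨Q, hQ, h4, h5⟩ := exists_split hB
    have hPD : P ⊆ D := hP.trans (hA'.trans hAD)
    have hPI : P ∈ I := hI.mono (hP.trans hA') hA
    have e1 : #(D \ P : Set Ω) = #D :=
      diff_eq (Q := A' \ P) (sdiff_subset_sdiff_left (hA'.trans hAD)) (by rw [h3, h1]; exact hB)
        (by rw [h3, h2])
    have e2 : #(D \ Q : Set Ω) = #D :=
      diff_eq (Q := B \ Q) (sdiff_subset_sdiff_left hBD) (by rw [h5]; exact hB) (by rw [h5, h4])
    have e3 : #(D \ (B \ Q) : Set Ω) = #D :=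
      diff_eq (Q := Q) (fun x hx => ⟨hBD (hQ hx), fun h' => h'.2 hx⟩) (by rw [h4]; exact hB)
        (by rw [h5, h4])
    obtain ⟨g1, hg1, hg1'⟩ := exists_move hPD (hQ.trans hBD) (by rw [h2, h1, h4])
      (e1.trans e2.symm)
    obtain ⟨g2, hg2, hg2'⟩ := exists_move hPD (sdiff_subset.trans hBD) (by rw [h2, h1, h5])
      (e1.trans e3.symm)
    have i1 := St.img (hD hg1) hPI
    have i2 := St.img (hD hg2) hPI
    rw [hg1'] at i1
    rw [hg2'] at i2
    have := hI.union i1 i2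
    rwa [union_sdiff_cancel hQ] at this
  · rw [not_le, Cardinal.lt_aleph0_iff_set_finite] at hB
    refine hI.finite hB fun x hx => ?_
    have hne : A.Nonempty := by
      rw [← Cardinal.mk_set_ne_zero_iff]
      intro h0
      rw [h0, nonpos_iff_eq_zero, Cardinal.mk_set_eq_zero_iff] at h
      rw [h] at hx; exact hx
    obtain ⟨a, ha⟩ := hne
    have := St.img (hD (swap_mem_Supp (hAD ha) (hBD hx))) (hI.mono (singleton_subset_iff.2 ha) hA)
    simpa using this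

theorem IsIdl.ne_top {I : Set (Set Ω)} (hI : IsIdl I) {A B : Set Ω} (hA : A ∈ I) (hB : B ∉ I)
    (h : #B ≤ #A) : St I ≠ ⊤ := fun ht =>
  hB (hI.of_le (D := univ) (by rw [ht]; exact le_top) hA (subset_univ _) (subset_univ _) h)

/-- Truncation lemma. -/
theorem IsIdl.trunc {I J : Set (Set Ω)} (hI : IsIdl I) (hJ : IsIdl J) (hIJ : I ⊆ J)
    (h : ∀ A ∈ J, Supp A ≤ St I) : ∃ μ : Cardinal.{u}, ∀ A, A ∈ I ↔ A ∈ J ∧ #A < μ := by
  let S : Set Cardinal.{u} := {c | (∃ B ∈ J, B ∉ I ∧ #B = c) ∨ c = Order.succ #Ω}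
  have hS : S.Nonempty := ⟨_, Or.inr rfl⟩
  refine ⟨sInf S, fun A => ⟨fun hA => ⟨hIJ hA, ?_⟩, fun ⟨hAJ, hlt⟩ => ?_⟩⟩
  · by_contra hle
    rw [not_lt] at hle
    rcases csInf_mem hS with ⟨B, hBJ, hBI, hB⟩ | hs
    · exact hBI (hI.of_le (h _ (hJ.union (hIJ hA) hBJ)) hA subset_union_left subset_union_right
        (hB ▸ hle))
    · rw [hs] at hle
      exact absurd (hle.trans (Cardinal.mk_set_le A)) (not_le.2 (Order.lt_succ _))
  · by_contra hA
    exact absurd (csInf_le' (show #A ∈ S from Or.inl ⟨A, hAJ, hA, rfl⟩)) (not_le.2 hlt)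

theorem coatom_eq {G K : Subgroup (Equiv.Perm Ω)} (hG : IsCoatom G) (h : G ≤ K) (hK : K ≠ ⊤) :
    K = G := by
  by_contra hne
  exact hK (hG.2 K (lt_of_le_of_ne h (Ne.symm hne)))

/-- The orthogonal ideal. -/
def perp (ν : Cardinal.{u}) (I : Set (Set Ω)) : Set (Set Ω) :=
  {A | ∀ B ∈ I, #(A ∩ B : Set Ω) < ν}

theorem perp_idl {ν : Cardinal.{u}} (hν : ℵ₀ ≤ ν) (I : Set (Set Ω)) : IsIdl (perp ν I) where
  empty := fun B _ => by simpa using Cardinal.aleph0_pos.trans_le hν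
  mono := fun h hB C hC => sub_lt (inter_subset_inter_left _ h) (hB C hC)
  union := fun hA hB C hC => by
    rw [union_inter_distrib_right]; exact union_lt hν (hA C hC) (hB C hC)

theorem le_St_perp (ν : Cardinal.{u}) (I : Set (Set Ω)) : St I ≤ St (perp ν I) := by
  refine le_St_of fun g hg A hA B hB => ?_
  have := hA _ (St.img ((St I).inv_mem hg) hB)
  rw [← mk_img g, image_inter g.injective, img_img_inv] at this
  exact this

/-- The join of two ideals. -/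
def join (I J : Set (Set Ω)) : Set (Set Ω) := {A | ∃ X ∈ I, ∃ Y ∈ J, A ⊆ X ∪ Y}

theorem join_idl {I J : Set (Set Ω)} (hI : IsIdl I) (hJ : IsIdl J) : IsIdl (join I J) where
  empty := ⟨∅, hI.empty, ∅, hJ.empty, empty_subset _⟩
  mono := fun h ⟨X, hX, Y, hY, h'⟩ => ⟨X, hX, Y, hY, h.trans h'⟩
  union := fun ⟨X, hX, Y, hY, h⟩ ⟨X', hX', Y', hY', h'⟩ =>
    ⟨X ∪ X', hI.union hX hX', Y ∪ Y', hJ.union hY hY', by
      rw [union_union_union_comm]; exact union_subset_union h h'⟩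

theorem le_St_join {I J : Set (Set Ω)} {G : Subgroup (Equiv.Perm Ω)} (hI : G ≤ St I)
    (hJ : G ≤ St J) : G ≤ St (join I J) := by
  refine le_St_of fun g hg A ⟨X, hX, Y, hY, h⟩ =>
    ⟨_, St.img (hI hg) hX, _, St.img (hJ hg) hY, ?_⟩
  rw [← image_union]; exact image_mono h

/-- Sets meeting `Φ` in fewer than `ν` points. -/
def alm (ν : Cardinal.{u}) (Φ : Set Ω) : Set (Set Ω) := {A | #(A ∩ Φ : Set Ω) < ν}

theorem alm_idl {ν : Cardinal.{u}} (hν : ℵ₀ ≤ ν) (Φ : Set Ω) : IsIdl (alm ν Φ) where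
  empty := by simpa [alm] using Cardinal.aleph0_pos.trans_le hν
  mono := fun h hB => sub_lt (inter_subset_inter_left _ h) hB
  union := fun hA hB => by
    show #(_ ∩ _ : Set Ω) < ν
    rw [union_inter_distrib_right]; exact union_lt hν hA hB

theorem compl_mem_alm {ν : Cardinal.{u}} (hν : ℵ₀ ≤ ν) (Φ : Set Ω) : Φᶜ ∈ alm ν Φ := by
  simpa [alm] using Cardinal.aleph0_pos.trans_le hν

theorem perp_alm {ν : Cardinal.{u}} (hν : ℵ₀ ≤ ν) (Φ : Set Ω) :
    perp ν (alm ν Φ) = alm ν Φᶜ := by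
  ext A
  constructor
  · intro h
    exact h _ (compl_mem_alm hν Φ)
  · intro h B hB
    refine sub_lt (B := (A ∩ Φᶜ) ∪ (B ∩ Φ)) ?_ (union_lt hν h hB)
    rintro x ⟨h1, h2⟩
    by_cases hx : x ∈ Φ
    · exact Or.inr ⟨h2, hx⟩
    · exact Or.inl ⟨h1, hx⟩

theorem St_alm_compl {ν : Cardinal.{u}} (hν : ℵ₀ ≤ ν) (Φ : Set Ω) :
    St (alm ν Φᶜ) = St (alm ν Φ) := by
  apply le_antisymm
  · have := le_St_perp ν (alm ν Φᶜ)
    rwa [perp_alm hν, compl_compl] at this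
  · have := le_St_perp ν (alm ν Φ)
    rwa [perp_alm hν] at this

/-- Ball's theorem on almost stabilizers. -/
theorem coatom_alm {Φ : Set Ω} (hi : ℵ₀ ≤ #Φ) (hlt : #Φ < #Ω) : IsCoatom (St (alm #Φ Φ)) := by
  have hI := alm_idl hi Φ
  have hΩ : ℵ₀ ≤ #(univ : Set Ω) := by rw [Cardinal.mk_univ]; exact hi.trans hlt.le
  have hlt' : #Φ < #(univ : Set Ω) := by rw [Cardinal.mk_univ]; exact hlt
  have hc : #(Φᶜ : Set Ω) = #(univ : Set Ω) := by
    rw [compl_eq_univ_sdiff]; exact diff_eq_of_lt hΩ hlt'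
  have hΦ : Φ ∉ alm #Φ Φ := by simp [alm]
  refine ⟨hI.ne_top (compl_mem_alm hi Φ) hΦ (hc ▸ hlt'.le), fun H hH => ?_⟩
  have h1 : Supp Φᶜ ≤ H := (hI.supp_le (compl_mem_alm hi Φ)).trans hH.le
  have h2 : Supp Φ ≤ H := by
    have := (alm_idl hi Φᶜ).supp_le (compl_mem_alm hi Φᶜ)
    rw [compl_compl, St_alm_compl hi] at this
    exact this.trans hH.le
  have key : ∃ g ∈ H, g '' Φᶜ ∉ alm #Φ Φ := by
    by_contra hcon
    push Not at hcon
    refine absurd (le_St_of fun g hg A hA => ?_) (not_le_of_gt hH)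
    have h3 : g '' (A ∩ Φ) ∈ alm #Φ Φ := sub_lt inter_subset_left (by rw [mk_img]; exact hA)
    refine hI.mono ?_ (hI.union (hcon g hg) h3)
    rintro _ ⟨x, hx, rfl⟩
    by_cases h : x ∈ Φ
    · exact Or.inr ⟨x, ⟨hx, h⟩, rfl⟩
    · exact Or.inl ⟨x, h, rfl⟩
  obtain ⟨g, hg, hg'⟩ := key
  have hge : #Φ ≤ #(g '' Φᶜ ∩ Φ : Set Ω) := not_lt.1 hg'
  have h4 : #(g '' Φᶜ ∩ Φᶜ : Set Ω) = #(univ : Set Ω) := by
    have : g '' Φᶜ ∩ Φᶜ = univ \ (g '' Φ ∪ Φ) := by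
      rw [image_compl_eq g.bijective]; ext x; simp
    rw [this]
    exact diff_eq_of_lt hΩ (union_lt hΩ (by rw [mk_img]; exact hlt') hlt')
  have h5 : Supp (g '' Φᶜ ∪ Φᶜ) ≤ H := by
    refine union_lemma (Supp_image h1 hg) h1 (h4 ▸ hΩ) ?_
    rw [h4]; exact sub_le (subset_univ _) le_rfl
  have h6 : #Φ ≤ #(Φ ∩ (g '' Φᶜ ∪ Φᶜ) : Set Ω) :=
    hge.trans (Cardinal.mk_le_mk_of_subset (fun x hx => ⟨hx.2, Or.inl hx.1⟩))
  have h7 := union_lemma h2 h5 (hi.trans h6) ((sub_le sdiff_subset le_rfl).trans h6)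
  have h8 : Φ ∪ (g '' Φᶜ ∪ Φᶜ) = univ := by
    ext x; by_cases h : x ∈ Φ <;> simp [h]
  rw [h8, Supp_univ] at h7
  exact top_le_iff.1 h7

theorem exists_flip {Φ : Set Ω} (h : #Φ = #(Φᶜ : Set Ω)) :
    ∃ g : Equiv.Perm Ω, g '' Φ = Φᶜ ∧ g '' Φᶜ = Φ := by
  obtain ⟨g, -, hg⟩ := exists_move (subset_univ Φ) (subset_univ Φᶜ) h
    (by rw [← compl_eq_univ_sdiff, ← compl_eq_univ_sdiff, compl_compl]; exact h.symm)
  exact ⟨g, hg, by rw [image_compl_eq g.bijective, hg, compl_compl]⟩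

/-- The almost stabilizer of a moiety is not maximal. -/
theorem not_coatom_alm {Φ : Set Ω} (hi : ℵ₀ ≤ #Φ) (h : #Φ = #(Φᶜ : Set Ω)) :
    ¬ IsCoatom (St (alm #Φ Φ)) := by
  intro hG
  have hle : St (alm #Φ Φ) ≤ St (alm #Φ Φ ∪ alm #Φ Φᶜ) := by
    refine le_St_of fun g hg A hA => hA.elim (fun hA => Or.inl (St.img hg hA)) fun hA => ?_
    rw [← St_alm_compl hi] at hg
    exact Or.inr (St.img hg hA)
  obtain ⟨P, hP, hP1, hP2⟩ := exists_split hi
  obtain ⟨Q, hQ, hQ1, hQ2⟩ := exists_split (h ▸ hi : ℵ₀ ≤ #(Φᶜ : Set Ω))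
  have hne : St (alm #Φ Φ ∪ alm #Φ Φᶜ) ≠ ⊤ := by
    intro ht
    have e1 : #(P ∪ Q : Set Ω) = #Φ :=
      le_antisymm (union_le hi hP1.le (hQ1.trans h.symm).le)
        (hP1 ▸ sub_le subset_union_left le_rfl)
    have e2 : #(univ \ (P ∪ Q) : Set Ω) = #Φ := by
      apply le_antisymm
      · refine sub_le (B := Φ ∪ Φᶜ) (by simp) (union_le hi le_rfl h.ge)
      · rw [← hP2]
        exact Cardinal.mk_le_mk_of_subset
          (fun x hx => ⟨trivial, fun h' => h'.elim hx.2 fun h'' => hQ h'' hx.1⟩)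
    obtain ⟨g, -, hg⟩ := exists_move (subset_univ Φᶜ) (subset_univ (P ∪ Q)) (h.symm.trans e1.symm)
      (by rw [e2, ← compl_eq_univ_sdiff, compl_compl])
    have := St.img (I := alm #Φ Φ ∪ alm #Φ Φᶜ) (g := g) (by rw [ht]; trivial)
      (Or.inl (compl_mem_alm hi Φ))
    rw [hg] at this
    rcases this with h' | h'
    · exact absurd (sub_lt (subset_inter subset_union_left hP) h') (by rw [hP1]; simp)
    · exact absurd (sub_lt (subset_inter subset_union_right hQ) h') (by rw [hQ1, ← h]; simp)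
  have heq := coatom_eq hG hle hne
  obtain ⟨g, hg1, hg2⟩ := exists_flip h
  have aux : ∀ k : Equiv.Perm Ω, k '' Φ = Φᶜ → k '' Φᶜ = Φ →
      ∀ A ∈ alm #Φ Φ ∪ alm #Φ Φᶜ, k '' A ∈ alm #Φ Φ ∪ alm #Φ Φᶜ := by
    intro k hk1 hk2 A hA
    rcases hA with hA | hA
    · right
      show #(_ ∩ _ : Set Ω) < _
      rw [← hk1, ← image_inter k.injective, mk_img]; exact hA
    · left
      show #(_ ∩ _ : Set Ω) < _
      have : k '' A ∩ Φ = k '' (A ∩ Φᶜ) := by rw [image_inter k.injective, hk2]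
      rw [this, mk_img]; exact hA
  have hg : g ∈ St (alm #Φ Φ ∪ alm #Φ Φᶜ) := by
    refine mem_St_of (aux g hg1 hg2) (aux g⁻¹ ?_ ?_)
    · conv_lhs => rw [← hg2]
      exact img_inv_img g _
    · conv_lhs => rw [← hg1]
      exact img_inv_img g _
  rw [heq] at hg
  have := St.img hg (compl_mem_alm hi Φ)
  rw [hg2] at this
  simp [alm] at this

end Pool.Agent.P.MP_60ae12_al
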