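import Pool.Agent.P.MP_60ae12_al.Ideal

open scoped Pointwise
open Set
open Cardinal hiding univ

namespace Pool.Agent.P.MP_60ae12_al

universe u

variable {Ω : Type u}

/-- Setwise stabilizer. -/
abbrev Sb (K : Set Ω) : Subgroup (Equiv.Perm Ω) := MulAction.stabilizer (Equiv.Perm Ω) K

theorem mem_Sb {K : Set Ω} {g : Equiv.Perm Ω} : g ∈ Sb K ↔ g '' K = K := Iff.rfl

theorem Sb_compl (K : Set Ω) : Sb Kᶜ = Sb K := by
  ext g
  rw [mem_Sb, mem_Sb, image_compl_eq g.bijective, compl_inj_iff]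

theorem le_Sb_of {K : Set Ω} {G : Subgroup (Equiv.Perm Ω)}
    (h : ∀ g ∈ G, ∀ x ∈ K, g x ∈ K) : G ≤ Sb K := by
  intro g hg
  rw [mem_Sb]
  apply Subset.antisymm
  · rintro _ ⟨x, hx, rfl⟩; exact h g hg x hx
  · intro x hx
    exact ⟨_, h _ (G.inv_mem hg) x hx, by simp⟩

theorem Supp_le_Sb (K : Set Ω) : Supp K ≤ Sb K := le_Sb_of fun _ hg _ hx => Supp.maps hg hx

theorem coatom_fin [Infinite Ω] {K : Set Ω} (hK : K.Finite) (hne : K.Nonempty) :
    IsCoatom (Sb K) := by
  classical
  have hKc : Kᶜ.Nonempty := (hK.infinite_compl).nonempty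
  refine ⟨Equiv.Perm.stabilizer_ne_top_of_nonempty_of_nonempty_compl hne hKc, fun H hH => ?_⟩
  have h1 : Supp Kᶜ ≤ H := ((Supp_le_Sb Kᶜ).trans (Sb_compl K).le).trans hH.le
  have h2 : Supp K ≤ H := (Supp_le_Sb K).trans hH.le
  obtain ⟨g, hgH, hg⟩ := SetLike.exists_of_lt hH
  have h3 : ∃ y ∈ K, y ∉ g '' K := by
    by_contra hcon
    push Not at hcon
    apply hg
    rw [mem_Sb]
    exact (Set.eq_of_subset_of_ncard_le hcon
      (Set.ncard_image_of_injective K g.injective).le (hK.image _)).symm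
  obtain ⟨y, hy, hy'⟩ := h3
  let C : Set (Set Ω) := {A | Aᶜ.Finite ∧ Supp A ≤ H}
  have hU : ∀ A ∈ C, ∀ B ∈ C, A ∪ B ∈ C := by
    intro A hA B hB
    have hi : ℵ₀ ≤ #(A ∩ B : Set Ω) := by
      rw [Cardinal.aleph0_le_mk_iff, Set.infinite_coe_iff]
      have := (hA.1.union hB.1).infinite_compl
      rwa [compl_union, compl_compl, compl_compl] at this
    refine ⟨hA.1.subset (compl_subset_compl.2 subset_union_left), union_lemma hA.2 hB.2 hi ?_⟩
    refine le_trans (le_of_lt ?_) hi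
    rw [Cardinal.lt_aleph0_iff_set_finite]
    exact hB.1.subset fun x hx => hx.2
  have hI : ∀ k ∈ H, ∀ A ∈ C, k '' A ∈ C := by
    intro k hk A hA
    refine ⟨?_, Supp_image hA.2 hk⟩
    rw [← image_compl_eq k.bijective]
    exact hA.1.image _
  have hKC : Kᶜ ∈ C := ⟨by simpa using hK, h1⟩
  have hx : ∀ x ∈ K, ∃ A ∈ C, x ∈ A := by
    intro x hx
    refine ⟨_, hI _ (h2 (swap_mem_Supp hy hx)) _ (hI g hgH _ hKC), y, ?_, by simp⟩
    rw [image_compl_eq g.bijective]; exact hy'
  have key : ∀ s : Set Ω, s.Finite → s ⊆ K → ∃ A ∈ C, Kᶜ ⊆ A ∧ s ⊆ A := by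
    intro s hs
    induction s, hs using Set.Finite.induction_on with
    | empty => exact fun _ => ⟨_, hKC, Subset.rfl, empty_subset _⟩
    | @insert a s _ _ ih =>
      intro h
      obtain ⟨A, hA, h4, h5⟩ := ih ((subset_insert _ _).trans h)
      obtain ⟨B, hB, h6⟩ := hx a (h (mem_insert _ _))
      exact ⟨_, hU A hA B hB, h4.trans subset_union_left,
        insert_subset (Or.inr h6) (h5.trans subset_union_left)⟩
  obtain ⟨A, hA, h4, h5⟩ := key K hK Subset.rfl
  have : A = univ := by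
    apply eq_univ_of_forall
    intro x
    by_cases h : x ∈ K
    · exact h5 h
    · exact h4 h
  have h6 := hA.2
  rw [this, Supp_univ] at h6
  exact top_le_iff.1 h6

theorem coatom_Sb_iff {K : Set Ω} (hne : K.Nonempty) (hnc : Kᶜ.Nonempty) :
    IsCoatom (Sb K) ↔ (K.Finite ∨ Kᶜ.Finite) ∧ (#K ≠ #(Kᶜ : Set Ω) ∨ #Ω = 2) := by
  classical
  constructor
  · intro hG
    obtain ⟨a, ha⟩ := hne
    obtain ⟨c, hc⟩ := hnc
    have h1 : K.Finite ∨ Kᶜ.Finite := by
      by_contra hcon
      rw [not_or] at hcon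
      have i1 : ℵ₀ ≤ #K := by
        rw [Cardinal.aleph0_le_mk_iff, Set.infinite_coe_iff]; exact hcon.1
      have i2 : ℵ₀ ≤ #(Kᶜ : Set Ω) := by
        rw [Cardinal.aleph0_le_mk_iff, Set.infinite_coe_iff]; exact hcon.2
      have hJ := alm_idl (le_refl ℵ₀) Kᶜ
      have hle : Sb K ≤ St (alm ℵ₀ Kᶜ) := by
        refine le_St_of fun g hg A hA => ?_
        rw [← Sb_compl, mem_Sb] at hg
        show #(_ ∩ _ : Set Ω) < _
        rw [← hg, ← image_inter g.injective, mk_img]; exact hA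
      obtain ⟨A, hA, hA'⟩ := exists_sub i1
      obtain ⟨B, hB, hB'⟩ := exists_sub i2
      have hAJ : A ∈ alm ℵ₀ Kᶜ := hJ.mono (by rw [compl_compl]; exact hA) (compl_mem_alm le_rfl _)
      have hBJ : B ∉ alm ℵ₀ Kᶜ := by
        show ¬ #(_ ∩ _ : Set Ω) < _
        rw [inter_eq_left.2 hB, hB']; simp
      have heq := coatom_eq hG hle (hJ.ne_top hAJ hBJ (by rw [hA', hB']))
      have h2 : ({a, c} : Set Ω) ∈ alm ℵ₀ Kᶜ :=
        sub_lt inter_subset_left (Cardinal.lt_aleph0_iff_set_finite.2 (toFinite _))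
      have h3 := hJ.supp_le h2 (swap_mem_Supp (a := a) (b := c) (by simp) (by simp))
      rw [heq, mem_Sb] at h3
      exact hc (h3 ▸ ⟨a, ha, by simp⟩)
    refine ⟨h1, ?_⟩
    by_contra hcon
    rw [not_or, not_not] at hcon
    obtain ⟨h2, h3⟩ := hcon
    have h4 : ∃ b ∈ K, b ≠ a := by
      by_contra hb
      push Not at hb
      apply h3
      have : K = {a} := eq_singleton_iff_unique_mem.2 ⟨ha, hb⟩
      rw [← Cardinal.mk_sum_compl K, ← h2, this, Cardinal.mk_singleton]
      norm_num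
    obtain ⟨b, hb, hba⟩ := h4
    have hle : Sb K ≤ St ({K, Kᶜ} : Set (Set Ω)) := by
      refine le_St_of fun g hg A hA => ?_
      rcases hA with rfl | rfl
      · left; exact hg
      · right
        rw [← Sb_compl] at hg; exact hg
    have hne : St ({K, Kᶜ} : Set (Set Ω)) ≠ ⊤ := by
      intro ht
      have := St.img (I := {K, Kᶜ}) (g := Equiv.swap a c) (by rw [ht]; trivial) (Or.inl rfl)
      rcases this with h | h
      · exact hc (h ▸ ⟨a, ha, by simp⟩)
      · have h' : Equiv.swap a c '' K = Kᶜ := h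
        have : b ∈ Kᶜ := h' ▸ ⟨b, hb, Equiv.swap_apply_of_ne_of_ne hba fun e => hc (e ▸ hb)⟩
        exact this hb
    have heq := coatom_eq hG hle hne
    obtain ⟨g, hg1, hg2⟩ := exists_flip h2
    have hg : g ∈ St ({K, Kᶜ} : Set (Set Ω)) := by
      refine mem_St_of ?_ ?_
      · rintro A (rfl | rfl)
        · right; exact hg1
        · left; exact hg2
      · rintro A (rfl | rfl)
        · right
          show _ = _
          conv_lhs => rw [← hg2]
          exact img_inv_img g _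
        · left
          conv_lhs => rw [← hg1]
          exact img_inv_img g _
    rw [heq, mem_Sb, hg1] at hg
    exact (hg.ge ha) ha
  · rintro ⟨h1, h2⟩
    rcases finite_or_infinite Ω with hΩ | hΩ
    · by_cases h : Nat.card Ω = 2 * K.ncard
      · have h3 : K.ncard = Kᶜ.ncard := by
          have := Set.ncard_add_ncard_compl K
          omega
        have h4 : #K = #(Kᶜ : Set Ω) := by
          rw [← Set.cast_ncard (toFinite K), ← Set.cast_ncard (toFinite Kᶜ), h3]
        have h5 : #Ω = 2 := h2.resolve_left (not_not.2 h4)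
        have h6 : Nat.card Ω = 2 := by
          simp [Nat.card, h5]
        have hp : Fact (Nat.card (Equiv.Perm Ω)).Prime := by
          apply Fact.mk
          rw [Nat.card_perm, h6, Nat.factorial_two]
          exact Nat.prime_two
        refine ⟨Equiv.Perm.stabilizer_ne_top_of_nonempty_of_nonempty_compl hne hnc,
          fun H hH => ?_⟩
        exact H.eq_bot_or_eq_top_of_prime_card.resolve_left (ne_bot_of_gt hH)
      · exact Equiv.Perm.isCoatom_stabilizer hne hnc h
    · rcases h1 with h1 | h1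
      · exact coatom_fin h1 hne
      · rw [← Sb_compl]; exact coatom_fin h1 hnc

end Pool.Agent.P.MP_60ae12_al
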