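import Pool.Agent.P.MP_60ae12_al.Tall

open scoped Pointwise
open Set
open Cardinal hiding univ

namespace Pool.Agent.P.MP_60ae12_al

universe u

variable {Ω : Type u} {I J : Set (Set Ω)} {ν : Cardinal.{u}} {E : Set Ω}

theorem Good.St_trunc (h : Good J ν E) {μ : Cardinal.{u}} (hμ : ν < μ)
    (hI : ∀ A, A ∈ I ↔ A ∈ J ∧ #A < μ) : St I = St J := by
  apply le_antisymm
  · refine le_St_of fun g hg A hA => h.of_inter ?_
    have h1 : A ∩ (g⁻¹ : Equiv.Perm Ω) '' E ∈ I :=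
      (hI _).2 ⟨h.idl.mono inter_subset_left hA,
        (sub_le inter_subset_right ((mk_img _ _).le.trans h.hE)).trans_lt hμ⟩
    have h2 := ((hI _).1 (St.img hg h1)).1
    rwa [image_inter g.injective, img_img_inv] at h2
  · exact le_St_of fun g hg A hA =>
      (hI _).2 ⟨St.img hg ((hI _).1 hA).1, by rw [mk_img]; exact ((hI _).1 hA).2⟩

theorem good_alm {Φ : Set Ω} (hi : ℵ₀ ≤ #Φ) : Good (alm #Φ Φ) #Φ Φ where
  idl := alm_idl hi Φ
  inf := hi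
  proper := by simp [alm]
  small := fun _ hA => sub_lt inter_subset_left hA
  hE := le_rfl
  hEc := compl_mem_alm hi Φ

theorem St_kernel {K : Set Ω} {μ : Cardinal.{u}} (hμ : 1 < μ)
    (hI : ∀ A, A ∈ I ↔ A ⊆ Kᶜ ∧ #A < μ) : St I = Sb K := by
  rw [← Sb_compl]
  apply le_antisymm
  · refine le_Sb_of fun g hg x hx => ?_
    have h1 : ({x} : Set Ω) ∈ I := (hI _).2 ⟨singleton_subset_iff.2 hx, by simpa using hμ⟩
    exact ((hI _).1 (St.img hg h1)).1 ⟨x, rfl, rfl⟩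
  · refine le_St_of fun g hg A hA => (hI _).2 ⟨?_, by rw [mk_img]; exact ((hI _).1 hA).2⟩
    rw [mem_Sb] at hg
    rw [← hg]; exact image_mono ((hI _).1 hA).1

/-- The three families, in terms of the dual ideal. -/
def Fam (I : Set (Set Ω)) : Prop :=
  (∃ K : Set Ω, K.Nonempty ∧ Kᶜ.Nonempty ∧ (K.Finite ∨ Kᶜ.Finite) ∧
    (#K ≠ #(Kᶜ : Set Ω) ∨ #Ω = 2) ∧ ∃ μ : Cardinal.{u}, 1 < μ ∧ ∀ A, A ∈ I ↔ A ⊆ Kᶜ ∧ #A < μ) ∨
  (∃ Φ : Set Ω, ℵ₀ ≤ #Φ ∧ #Φ < #Ω ∧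
    ((∃ μ : Cardinal.{u}, #Φ < μ ∧ ∀ A, A ∈ I ↔ A ∈ alm #Φ Φ ∧ #A < μ) ∨ I = alm #Φ Φᶜ)) ∨
  (∃ (J : Set (Set Ω)) (ν : Cardinal.{u}) (E : Set Ω), Good J ν E ∧ Tall J ν ∧ HomI J ∧
    ∃ μ : Cardinal.{u}, ν < μ ∧ ∀ A, A ∈ I ↔ A ∈ J ∧ #A < μ)

theorem coatom_of_fam (h : Fam I) : IsCoatom (St I) := by
  rcases h with ⟨K, h1, h2, h3, h4, μ, hμ, hI⟩ | ⟨Φ, h1, h2, ⟨μ, hμ, hI⟩ | hI⟩ |
    ⟨J, ν, E, h1, h2, h3, μ, hμ, hI⟩
  · rw [St_kernel hμ hI]; exact (coatom_Sb_iff h1 h2).2 ⟨h3, h4⟩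
  · rw [(good_alm h1).St_trunc hμ hI]; exact coatom_alm h1 h2
  · rw [hI, St_alm_compl h1]; exact coatom_alm h1 h2
  · rw [h1.St_trunc hμ hI]; exact h1.coatom h2 h3

theorem fam_kernel (hI : IsIdl I) (hG : IsCoatom (St I)) {x : Ω} (hx : ({x} : Set Ω) ∉ I) :
    Fam I := by
  let K : Set Ω := {y | ({y} : Set Ω) ∉ I}
  have hsub : ∀ A ∈ I, A ⊆ Kᶜ := fun A hA y hy h' =>
    h' (hI.mono (singleton_subset_iff.2 hy) hA)
  have hKc : Kᶜ.Nonempty := by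
    by_contra hcon
    rw [not_nonempty_iff_eq_empty] at hcon
    apply hG.1
    rw [eq_top_iff]
    refine le_St_of fun g _ A hA => ?_
    have := hsub A hA
    rw [hcon, subset_empty_iff] at this
    rw [this, image_empty]; exact hI.empty
  have hle : St I ≤ Sb K := le_Sb_of fun g hg y hy h' =>
    hy (St.of_img hg (by rw [image_singleton]; exact h'))
  have heq := coatom_eq hG hle
    (Equiv.Perm.stabilizer_ne_top_of_nonempty_of_nonempty_compl ⟨x, hx⟩ hKc)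
  have hP : IsIdl {A : Set Ω | A ⊆ Kᶜ} :=
    ⟨empty_subset _, fun h1 h2 => h1.trans h2, fun h1 h2 => union_subset h1 h2⟩
  obtain ⟨μ, hμ⟩ := hI.trunc hP hsub fun A hA => by
    rw [← heq, ← Sb_compl]; exact (Supp_mono hA).trans (Supp_le_Sb _)
  obtain ⟨h3, h4⟩ := (coatom_Sb_iff ⟨x, hx⟩ hKc).1 (heq ▸ hG)
  refine Or.inl ⟨K, ⟨x, hx⟩, hKc, h3, h4, μ, ?_, hμ⟩
  obtain ⟨y, hy⟩ := hKc
  simpa using ((hμ {y}).1 (not_not.1 hy)).2

theorem fam_b (hI : IsIdl I) (hG : IsCoatom (St I)) (hν : ℵ₀ ≤ ν) (hlt : ν < #Ω)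
    (small : ∀ A : Set Ω, #A < ν → A ∈ I) {A1 : Set Ω} (hA1 : A1 ∈ I) (hA1' : #A1 = ν)
    (hE : #E ≤ ν) (hb : ∀ A ⊆ Eᶜ, A ∈ I → #A < ν) : Fam I := by
  have hP := perp_idl hν I
  have hlt' : ν < #(univ : Set Ω) := by rw [Cardinal.mk_univ]; exact hlt
  have hc : #(Eᶜ : Set Ω) = #(univ : Set Ω) := by
    rw [compl_eq_univ_sdiff]; exact diff_eq_of_lt (hν.trans hlt'.le) (hE.trans_lt hlt')
  have hEP : Eᶜ ∈ perp ν I := fun B hB =>
    hb _ inter_subset_left (hI.mono inter_subset_right hB)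
  have hL := join_idl hP hI
  have hU : univ ∈ join (perp ν I) I := by
    by_contra hU
    have hX : Eᶜ ∈ join (perp ν I) I := ⟨_, hEP, ∅, hI.empty, subset_union_left⟩
    have heq := coatom_eq hG (le_St_join (le_St_perp ν I) le_rfl) (hL.ne_top hX hU hc.ge)
    have h1 : Eᶜ ∪ A1 ∈ join (perp ν I) I := ⟨_, hEP, _, hA1, Subset.rfl⟩
    obtain ⟨B, hB, hB'⟩ := exists_sub (hc ▸ hlt'.le : ν ≤ #(Eᶜ : Set Ω))
    have h2 : B ∈ I := hI.of_le (heq ▸ hL.supp_le h1) hA1 subset_union_right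
      (hB.trans subset_union_left) (by rw [hB', hA1'])
    exact absurd (hb B hB h2) (by rw [hB']; simp)
  obtain ⟨X, hX, Y, hY, hXY⟩ := hU
  have hX' : X ∪ Eᶜ ∈ perp ν I := hP.union hX hEP
  have hΦ : (X ∪ Eᶜ)ᶜ ∈ I :=
    hI.mono (fun x hx => (hXY (mem_univ x)).resolve_left fun h' => hx (Or.inl h')) hY
  have h1 : #((X ∪ Eᶜ)ᶜ : Set Ω) = ν := by
    apply le_antisymm
    · refine sub_le (fun x hx => ?_) hE
      by_contra h'
      exact hx (Or.inr h')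
    · by_contra h'
      have := union_lt hν (hX' A1 hA1) (not_le.1 h')
      refine absurd (sub_lt (A := A1) (fun x hx => ?_) this) (by rw [hA1']; simp)
      by_cases h'' : x ∈ X ∪ Eᶜ
      · exact Or.inl ⟨h'', hx⟩
      · exact Or.inr h''
  refine Or.inr (Or.inl ⟨(X ∪ Eᶜ)ᶜ, h1 ▸ hν, h1 ▸ hlt, Or.inr ?_⟩)
  rw [h1, compl_compl]
  ext A
  constructor
  · intro hA
    show #(_ ∩ _ : Set Ω) < ν
    rw [inter_comm]; exact hX' A hA
  · intro hA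
    refine hI.mono (fun x hx => ?_) (hI.union (small _ hA) hΦ)
    by_cases h'' : x ∈ X ∪ Eᶜ
    · exact Or.inl ⟨hx, h''⟩
    · exact Or.inr h''

theorem good_cases (h : Good J ν E) (hG : IsCoatom (St J)) {A1 : Set Ω} (hA1 : A1 ∈ J)
    (hA1' : #A1 = ν) : Tall J ν ∨ ∃ Φ : Set Ω, #Φ = ν ∧ ν < #Ω ∧ J = alm ν Φ := by
  by_cases ht : Tall J ν
  · exact Or.inl ht
  right
  unfold Tall at ht
  push Not at ht
  obtain ⟨A, hA, hA'⟩ := ht
  obtain ⟨B, hB, hB'⟩ := exists_sub hA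
  have hP := perp_idl h.inf J
  have hBP : B ∈ perp ν J := fun C hC =>
    hA' _ (inter_subset_left.trans hB) (h.idl.mono inter_subset_right hC)
  have hL := join_idl hP h.idl
  have hU : univ ∈ join (perp ν J) J := by
    by_contra hU
    obtain ⟨X, hX, hX'⟩ := h.big hA1 hA1'.ge
    have hX2 : X ∈ join (perp ν J) J := ⟨_, hP.empty, X, hX, subset_union_right⟩
    have heq := coatom_eq hG (le_St_join (le_St_perp ν J) le_rfl) (hL.ne_top hX2 hU hX')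
    have h1 : B ∪ A1 ∈ join (perp ν J) J := ⟨_, hBP, _, hA1, Subset.rfl⟩
    have h2 : B ∈ J := h.idl.of_le (heq ▸ hL.supp_le h1) hA1 subset_union_right
      subset_union_left (by rw [hB', hA1'])
    exact absurd (hA' B hB h2) (by rw [hB']; simp)
  obtain ⟨X, hX, Y, hY, hXY⟩ := hU
  have hY' : Y ∪ Eᶜ ∈ J := h.idl.union hY h.hEc
  have hΦ : (Y ∪ Eᶜ)ᶜ ∈ perp ν J :=
    hP.mono (fun x hx => (hXY (mem_univ x)).resolve_right fun h' => hx (Or.inl h')) hX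
  have h1 : #((Y ∪ Eᶜ)ᶜ : Set Ω) = ν := by
    apply le_antisymm
    · refine sub_le (fun x hx => ?_) h.hE
      by_contra h'
      exact hx (Or.inr h')
    · by_contra h'
      have := h.idl.union hY' (h.small _ (not_le.1 h'))
      rw [union_compl_self] at this
      exact h.proper this
  have h2 : J = alm ν (Y ∪ Eᶜ)ᶜ := by
    ext C
    constructor
    · intro hC
      show #(_ ∩ _ : Set Ω) < ν
      rw [inter_comm]; exact hΦ C hC
    · intro hC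
      refine h.idl.mono (fun x hx => ?_) (h.idl.union (h.small _ hC) hY')
      by_cases h'' : x ∈ Y ∪ Eᶜ
      · exact Or.inr h''
      · exact Or.inl ⟨hx, h''⟩
  refine ⟨_, h1, ?_, h2⟩
  generalize (Y ∪ Eᶜ)ᶜ = Φ at h1 h2
  rcases h.le_univ.eq_or_lt with he | hlt
  · exfalso
    have h3 : #Φ = #(Φᶜ : Set Ω) := by
      apply le_antisymm
      · by_contra h'
        rw [not_le, h1] at h'
        have h4 : A1 ∈ alm ν Φ := h2 ▸ hA1
        have := union_lt h.inf h4 h'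
        refine absurd (sub_lt (A := A1) (fun x hx => ?_) this) (by rw [hA1']; simp)
        by_cases h'' : x ∈ Φ
        · exact Or.inl ⟨hx, h''⟩
        · exact Or.inr h''
      · rw [h1, he]; exact sub_le (subset_univ _) le_rfl
    refine not_coatom_alm (h1 ▸ h.inf) h3 ?_
    rw [h1, ← h2]; exact hG
  · rwa [Cardinal.mk_univ] at hlt

theorem fam_a (hI : IsIdl I) (hG : IsCoatom (St I)) (hν : ℵ₀ ≤ ν)
    (small : ∀ A : Set Ω, #A < ν → A ∈ I) {A1 B1 : Set Ω} (hA1 : A1 ∈ I) (hA1' : #A1 = ν)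
    (hB1 : B1 ∉ I) (hB1' : #B1 = ν) (hE : #E ≤ ν) (ha : ∀ A ⊆ Eᶜ, #A ≤ ν → A ∈ I) : Fam I := by
  let J : Set (Set Ω) := {A | ∀ B ⊆ A, #B ≤ ν → B ∈ I}
  have hIJ : I ⊆ J := fun A hA B hB _ => hI.mono hB hA
  have hJ : IsIdl J := by
    refine ⟨hIJ hI.empty, fun hAB hB C hC h' => hB C (hC.trans hAB) h', ?_⟩
    intro A B hA hB C hC h'
    have := hI.union (hA (C ∩ A) inter_subset_right (sub_le inter_subset_left h'))
      (hB (C ∩ B) inter_subset_right (sub_le inter_subset_left h'))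
    rwa [← inter_union_distrib_left, inter_eq_left.2 hC] at this
  have hB1J : B1 ∉ J := fun h' => hB1 (h' B1 Subset.rfl hB1'.le)
  have hgood : Good J ν E :=
    ⟨hJ, hν, fun h' => hB1J (hJ.mono (subset_univ _) h'), fun A hA => hIJ (small A hA), hE, ha⟩
  have hle : St I ≤ St J := by
    refine le_St_of fun g hg A hA B hB h' => ?_
    refine St.of_img ((St I).inv_mem hg) (hA _ ?_ (by rw [mk_img]; exact h'))
    rw [← img_inv_img g A]; exact image_mono hB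
  have heq := coatom_eq hG hle (hJ.ne_top (hIJ hA1) hB1J (by rw [hA1', hB1']))
  obtain ⟨μ, hμ⟩ := hI.trunc hJ hIJ fun A hA => heq ▸ hJ.supp_le hA
  have hνμ : ν < μ := hA1' ▸ ((hμ A1).1 hA1).2
  rcases good_cases hgood (heq ▸ hG) (hIJ hA1) hA1' with ht | ⟨Φ, h1, h2, h3⟩
  · exact Or.inr (Or.inr ⟨J, ν, E, hgood, ht, hgood.homI ht (heq ▸ hG), μ, hνμ, hμ⟩)
  · refine Or.inr (Or.inl ⟨Φ, h1 ▸ hν, h1 ▸ h2, Or.inl ⟨μ, h1 ▸ hνμ, ?_⟩⟩)
    rw [h1, ← h3]; exact hμ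

theorem fam_of_coatom (hI : IsIdl I) (hp : univ ∉ I) (hG : IsCoatom (St I)) : Fam I := by
  by_cases hx : ∃ x : Ω, ({x} : Set Ω) ∉ I
  · obtain ⟨x, hx⟩ := hx
    exact fam_kernel hI hG hx
  push Not at hx
  let S : Set Cardinal.{u} := {c | ∃ B : Set Ω, B ∉ I ∧ #B = c}
  obtain ⟨B1, hB1, hB1'⟩ : sInf S ∈ S := csInf_mem ⟨_, univ, hp, rfl⟩
  have small : ∀ A : Set Ω, #A < sInf S → A ∈ I := fun A hA => by
    by_contra h'
    exact absurd (csInf_le' (show #A ∈ S from ⟨A, h', rfl⟩)) (not_le.2 hA)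
  generalize sInf S = ν at hB1' small
  have hν : ℵ₀ ≤ ν := by
    by_contra h'
    rw [not_le, ← hB1', Cardinal.lt_aleph0_iff_set_finite] at h'
    exact hB1 (hI.finite h' fun x _ => hx x)
  have hA : ∃ A ∈ I, ν ≤ #A := by
    by_contra hcon
    push Not at hcon
    apply hG.1
    rw [eq_top_iff]
    exact le_St_of fun g _ A hA => small _ (by rw [mk_img]; exact hcon A hA)
  obtain ⟨A, hA, hA'⟩ := hA
  obtain ⟨A1, h1, hA1'⟩ := exists_sub hA'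
  have hA1 : A1 ∈ I := hI.mono h1 hA
  rcases (hB1' ▸ Cardinal.mk_set_le B1 : ν ≤ #Ω).eq_or_lt with he | hlt
  · refine fam_a (E := univ) hI hG hν small hA1 hA1' hB1 hB1' (by rw [Cardinal.mk_univ, he]) ?_
    intro C hC _
    rw [compl_univ, subset_empty_iff] at hC
    rw [hC]; exact hI.empty
  · obtain ⟨E, hE, h | h⟩ := claimE hI hG hν small hA1 hA1' hB1 hB1'
    · exact fam_a hI hG hν small hA1 hA1' hB1 hB1' hE h
    · exact fam_b hI hG hν hlt small hA1 hA1' hE h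

end Pool.Agent.P.MP_60ae12_al
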