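import Pool.Agent.P.MP_60ae12_al.Kernel

open scoped Pointwise
open Set
open Cardinal hiding univ

namespace Pool.Agent.P.MP_60ae12_al

universe u

variable {Ω : Type u}

/-- Weak homogeneity for ideals. -/
def HomI (J : Set (Set Ω)) : Prop :=
  ∀ A : Set Ω, A ∉ J → ∃ (n : ℕ) (B : Fin n → Set Ω) (f : Fin n → Ω → Ω),
    (⋃ i, B i)ᶜ ∈ J ∧ ∀ i, InjOn (f i) (B i) ∧ MapsTo (f i) (B i) A ∧
      ∀ C : Set Ω, C ⊆ B i → (C ∈ J ↔ f i '' C ∈ J)

/-- Standing data: a proper ideal dual to a closed filter of infinite depth `ν`. -/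
structure Good (J : Set (Set Ω)) (ν : Cardinal.{u}) (E : Set Ω) : Prop where
  idl : IsIdl J
  inf : ℵ₀ ≤ ν
  proper : univ ∉ J
  small : ∀ A : Set Ω, #A < ν → A ∈ J
  hE : #E ≤ ν
  hEc : Eᶜ ∈ J

/-- Every set of size at least `ν` has a subset in `J` of size at least `ν`. -/
def Tall (J : Set (Set Ω)) (ν : Cardinal.{u}) : Prop :=
  ∀ A : Set Ω, ν ≤ #A → ∃ A0 ⊆ A, A0 ∈ J ∧ ν ≤ #A0

variable {J : Set (Set Ω)} {ν : Cardinal.{u}} {E : Set Ω}

theorem Good.of_inter (h : Good J ν E) {A : Set Ω} (hA : A ∩ E ∈ J) : A ∈ J := by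
  refine h.idl.mono (fun x hx => ?_) (h.idl.union hA h.hEc)
  by_cases hx' : x ∈ E
  · exact Or.inl ⟨hx, hx'⟩
  · exact Or.inr hx'

theorem Good.le_univ (h : Good J ν E) : ν ≤ #(univ : Set Ω) :=
  not_lt.1 fun hlt => h.proper (h.small _ hlt)

theorem Good.big (h : Good J ν E) {A : Set Ω} (hA : A ∈ J) (hν : ν ≤ #A) :
    ∃ X ∈ J, #(univ : Set Ω) ≤ #X := by
  rcases h.le_univ.eq_or_lt with he | hlt
  · exact ⟨A, hA, he ▸ hν⟩
  · refine ⟨Eᶜ, h.hEc, ?_⟩
    rw [compl_eq_univ_sdiff, diff_eq_of_lt (h.inf.trans hlt.le) (h.hE.trans_lt hlt)]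

theorem Good.mem_of_supp (h : Good J ν E) (ht : Tall J ν) {A : Set Ω} (hA : Supp A ≤ St J) :
    A ∈ J := by
  apply h.of_inter
  by_cases hc : #(A ∩ E : Set Ω) < ν
  · exact h.small _ hc
  · obtain ⟨A0, h1, h2, h3⟩ := ht _ (not_lt.1 hc)
    exact h.idl.of_le hA h2 (h1.trans inter_subset_left) inter_subset_left
      ((sub_le inter_subset_right h.hE).trans h3)

theorem Good.supp_idl (h : Good J ν E) (ht : Tall J ν) {H : Subgroup (Equiv.Perm Ω)}
    (hH : St J ≤ H) : IsIdl {A : Set Ω | Supp A ≤ H} := by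
  have aux : ∀ A D : Set Ω, Supp A ≤ H → ν ≤ #(A ∩ E : Set Ω) →
      (∀ C ∈ J, Supp (D ∪ C) ≤ H) → Supp (A ∪ D) ≤ H := by
    intro A D hA hc hD
    obtain ⟨A0, h1, h2, h3⟩ := ht _ hc
    have h4 : ν ≤ #(A ∩ (D ∪ (Eᶜ ∪ A0)) : Set Ω) :=
      h3.trans (Cardinal.mk_le_mk_of_subset fun x hx => ⟨(h1 hx).1, Or.inr (Or.inr hx)⟩)
    have h5 : #(A \ (D ∪ (Eᶜ ∪ A0)) : Set Ω) ≤ ν := by
      refine sub_le (fun x hx => ?_) h.hE
      by_contra hx'
      exact hx.2 (Or.inr (Or.inl hx'))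
    have := union_lemma hA (hD _ (h.idl.union h.hEc h2)) (h.inf.trans h4) (h5.trans h4)
    exact (Supp_mono (union_subset_union_right _ subset_union_left)).trans this
  have s0 : ∀ C ∈ J, Supp C ≤ H := fun C hC => (h.idl.supp_le hC).trans hH
  have s1 : ∀ A : Set Ω, Supp A ≤ H → ∀ C ∈ J, Supp (A ∪ C) ≤ H := by
    intro A hA C hC
    by_cases hc : #(A ∩ E : Set Ω) < ν
    · exact s0 _ (h.idl.union (h.of_inter (h.small _ hc)) hC)
    · exact aux A C hA (not_lt.1 hc) fun D hD => s0 _ (h.idl.union hC hD)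
  refine ⟨s0 _ h.idl.empty, fun hAB hB => (Supp_mono hAB).trans hB, fun {A B} hA hB => ?_⟩
  by_cases hc : #(A ∩ E : Set Ω) < ν
  · have := s1 B hB A (h.of_inter (h.small _ hc))
    rw [union_comm] at this
    exact this
  · exact aux A B hA (not_lt.1 hc) (s1 B hB)

theorem Good.coatom (h : Good J ν E) (ht : Tall J ν) (hh : HomI J) : IsCoatom (St J) := by
  obtain ⟨A0, -, h2, h3⟩ := ht univ h.le_univ
  obtain ⟨X, hX, hX'⟩ := h.big h2 h3
  refine ⟨h.idl.ne_top hX h.proper hX', fun H hH => ?_⟩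
  have hI := h.supp_idl ht hH.le
  have s0 : ∀ C ∈ J, Supp C ≤ H := fun C hC => (h.idl.supp_le hC).trans hH.le
  have key : ∃ A, Supp A ≤ H ∧ A ∉ J := by
    by_contra hcon
    push Not at hcon
    exact absurd (le_St_of fun g hg A hA => hcon _ (Supp_image (s0 A hA) hg)) (not_le_of_gt hH)
  obtain ⟨A, hA, hAJ⟩ := key
  obtain ⟨n, B, f, hB, hf⟩ := hh A hAJ
  have hBi : ∀ i, B i ∈ {A : Set Ω | Supp A ≤ H} := by
    intro i
    obtain ⟨f1, f2, f3⟩ := hf i
    have hsub : f i '' (B i \ A) ⊆ A := by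
      rintro _ ⟨x, hx, rfl⟩; exact f2 hx.1
    have hd : Disjoint (B i \ A) (f i '' (B i \ A)) :=
      disjoint_left.2 fun x hx hx2 => hx.2 (hsub hx2)
    obtain ⟨g, g1, g2, g3⟩ := exists_swap (f1.mono sdiff_subset) hd
    have hinv : g⁻¹ = g := by
      rw [inv_eq_iff_mul_eq_one]
      ext x
      show g (g x) = x
      by_cases hx : x ∈ B i \ A
      · rw [g2 hx, g3 x hx]
      · by_cases hx2 : x ∈ f i '' (B i \ A)
        · obtain ⟨y, hy, rfl⟩ := hx2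
          rw [g3 y hy, g2 hy]
        · have := g1 x fun h' => h'.elim hx hx2
          rw [this, this]
    have hpres : ∀ C ∈ J, g '' C ∈ J := by
      intro C hC
      have c1 : f i '' (C ∩ (B i \ A)) ∈ J :=
        (f3 _ (inter_subset_right.trans sdiff_subset)).1 (h.idl.mono inter_subset_left hC)
      have c2 : {x | x ∈ B i \ A ∧ f i x ∈ C} ∈ J := by
        refine (f3 _ fun x hx => hx.1.1).2 (h.idl.mono ?_ hC)
        rintro _ ⟨x, hx, rfl⟩; exact hx.2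
      refine h.idl.mono ?_ (h.idl.union hC (h.idl.union c1 c2))
      rintro _ ⟨x, hx, rfl⟩
      by_cases hx1 : x ∈ B i \ A
      · rw [g2 hx1]; exact Or.inr (Or.inl ⟨x, ⟨hx, hx1⟩, rfl⟩)
      · by_cases hx2 : x ∈ f i '' (B i \ A)
        · obtain ⟨y, hy, rfl⟩ := hx2
          rw [g3 y hy]; exact Or.inr (Or.inr ⟨hy, hx⟩)
        · rw [g1 x fun h' => h'.elim hx1 hx2]; exact Or.inl hx
    have hg : g ∈ St J := mem_St_of hpres (by rw [hinv]; exact hpres)
    have e1 : Supp (B i \ A) ≤ H := by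
      refine Supp_conj hA (hH.le hg) ?_
      rw [g2.image_eq]; exact hsub
    refine hI.mono (fun x hx => ?_) (hI.union hA e1)
    by_cases hx' : x ∈ A
    · exact Or.inl hx'
    · exact Or.inr ⟨hx, hx'⟩
  have := hI.union (hI.iUnion hBi) (s0 _ hB)
  rw [union_compl_self] at this
  have h6 : Supp univ ≤ H := this
  rw [Supp_univ] at h6
  exact top_le_iff.1 h6

theorem Good.homI (h : Good J ν E) (ht : Tall J ν) (hG : IsCoatom (St J)) : HomI J := by
  classical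
  intro A hA
  obtain ⟨A0, -, h2, h3⟩ := ht univ h.le_univ
  obtain ⟨X, hX, hX'⟩ := h.big h2 h3
  let L : Set (Set Ω) := {B | ∃ s : Finset (Equiv.Perm Ω), (∀ g ∈ s, g ∈ St J) ∧
    ∃ Y ∈ J, B ⊆ Y ∪ ⋃ g ∈ s, g '' A}
  have hJL : J ⊆ L := fun B hB => ⟨∅, by simp, B, hB, subset_union_left⟩
  have hL : IsIdl L := by
    refine ⟨hJL h.idl.empty, ?_, ?_⟩
    · rintro B C hBC ⟨s, hs, Y, hY, h'⟩
      exact ⟨s, hs, Y, hY, hBC.trans h'⟩
    · rintro B C ⟨s, hs, Y, hY, h'⟩ ⟨t, ht, Z, hZ, h''⟩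
      refine ⟨s ∪ t, fun g hg => (Finset.mem_union.1 hg).elim (hs g) (ht g), Y ∪ Z,
        h.idl.union hY hZ, ?_⟩
      rw [Finset.set_biUnion_union, union_union_union_comm]
      exact union_subset_union h' h''
  have hle : St J ≤ St L := by
    refine le_St_of ?_
    rintro k hk B ⟨s, hs, Y, hY, h'⟩
    refine ⟨s.image (k * ·), ?_, k '' Y, St.img hk hY, ?_⟩
    · intro g hg
      obtain ⟨g', hg', rfl⟩ := Finset.mem_image.1 hg
      exact (St J).mul_mem hk (hs g' hg')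
    · rintro _ ⟨x, hx, rfl⟩
      rcases h' hx with h1 | h1
      · exact Or.inl ⟨x, h1, rfl⟩
      · right
        simp only [mem_iUnion] at h1 ⊢
        obtain ⟨g, hg, y, hy, rfl⟩ := h1
        exact ⟨k * g, Finset.mem_image_of_mem _ hg, y, hy, rfl⟩
  have hAL : A ∈ L := ⟨{1}, by simp, ∅, h.idl.empty, by simp⟩
  have hU : univ ∈ L := by
    by_contra hU
    have heq := coatom_eq hG hle (hL.ne_top (hJL hX) hU hX')
    exact hA (h.mem_of_supp ht (heq ▸ hL.supp_le hAL))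
  obtain ⟨s, hs, Y, hY, h'⟩ := hU
  let e := s.equivFin.symm
  refine ⟨s.card, fun i => (e i : Equiv.Perm Ω) '' A, fun i => ((e i : Equiv.Perm Ω)⁻¹ :
    Equiv.Perm Ω), h.idl.mono ?_ hY, fun i => ⟨(Equiv.injective _).injOn, ?_, fun C _ => ?_⟩⟩
  · intro x hx
    refine (h' (mem_univ x)).resolve_right fun h1 => hx ?_
    simp only [mem_iUnion] at h1 ⊢
    obtain ⟨g, hg, h1⟩ := h1
    exact ⟨e.symm ⟨g, hg⟩, by simpa using h1⟩
  · rintro _ ⟨y, hy, rfl⟩
    simpa using hy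
  · have := (St J).inv_mem (hs _ (e i).2)
    exact ⟨St.img this, St.of_img this⟩

theorem exists_glue {m : Set (Set Ω)} (hm : m.PairwiseDisjoint id) (G : m → Equiv.Perm Ω)
    (hG : ∀ C : m, G C ∈ Supp C) : ∃ h : Equiv.Perm Ω, ∀ C : m, EqOn h (G C) C := by
  classical
  let p : (m → Equiv.Perm Ω) → Ω → Ω := fun G x =>
    if h : ∃ C : m, x ∈ (C : Set Ω) then G h.choose x else x
  have p1 : ∀ G (C : m) x, x ∈ (C : Set Ω) → p G x = G C x := by
    intro G C x hx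
    have h : ∃ C : m, x ∈ (C : Set Ω) := ⟨C, hx⟩
    have : h.choose = C := by
      apply Subtype.ext
      by_contra hne
      exact disjoint_left.1 (hm h.choose.2 C.2 hne) h.choose_spec hx
    simp only [p, h, dif_pos, this]
  have p2 : ∀ G x, (¬ ∃ C : m, x ∈ (C : Set Ω)) → p G x = x := by
    intro G x h
    simp only [p, h, dif_neg, not_false_eq_true]
  have inv : ∀ G G' : m → Equiv.Perm Ω, (∀ C : m, G C ∈ Supp C) → (∀ C x, G' C (G C x) = x) →
      Function.LeftInverse (p G') (p G) := by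
    intro G G' hG hGG' x
    by_cases h : ∃ C : m, x ∈ (C : Set Ω)
    · obtain ⟨C, hC⟩ := h
      rw [p1 G C x hC, p1 G' C _ (Supp.maps (hG C) hC), hGG']
    · rw [p2 G x h, p2 G' x h]
  have i1 : Function.LeftInverse (p fun C => (G C)⁻¹) (p G) :=
    inv G (fun C => (G C)⁻¹) hG (by simp)
  have i2 : Function.LeftInverse (p G) (p fun C => (G C)⁻¹) :=
    inv (fun C => (G C)⁻¹) G (fun C => (Supp (C : Set Ω)).inv_mem (hG C)) (by simp)
  exact ⟨⟨p G, p fun C => (G C)⁻¹, i1, i2⟩, fun C x hx => p1 G C x hx⟩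

/-- Permutations agreeing with a member of `G` off a set of size at most `ν`. -/
def near (G : Subgroup (Equiv.Perm Ω)) (ν : Cardinal.{u}) (hν : ℵ₀ ≤ ν) :
    Subgroup (Equiv.Perm Ω) where
  carrier := {h | ∃ g ∈ G, #({x | g x ≠ h x} : Set Ω) ≤ ν}
  one_mem' := ⟨1, G.one_mem, by simp⟩
  mul_mem' := by
    rintro h1 h2 ⟨g1, a1, b1⟩ ⟨g2, a2, b2⟩
    refine ⟨g1 * g2, G.mul_mem a1 a2, sub_le ?_ (union_le hν b2
      ((mk_img h2⁻¹ {x | g1 x ≠ h1 x}).le.trans b1))⟩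
    intro x hx
    by_cases h : g2 x = h2 x
    · right
      refine ⟨h2 x, ?_, by simp⟩
      intro h'
      apply hx
      show g1 (g2 x) = h1 (h2 x)
      rw [h, h']
    · exact Or.inl h
  inv_mem' := by
    rintro h ⟨g, a, b⟩
    refine ⟨g⁻¹, G.inv_mem a, sub_le ?_ ((mk_img h {x | g x ≠ h x}).le.trans b)⟩
    intro x hx
    refine ⟨h⁻¹ x, fun h' => hx ?_, by simp⟩
    rw [Equiv.Perm.inv_eq_iff_eq, h']
    simp

theorem claimE {I : Set (Set Ω)} (hI : IsIdl I) (hG : IsCoatom (St I)) (hν : ℵ₀ ≤ ν)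
    (small : ∀ A : Set Ω, #A < ν → A ∈ I) {A1 B1 : Set Ω} (hA1 : A1 ∈ I) (hA1' : #A1 = ν)
    (hB1 : B1 ∉ I) (hB1' : #B1 = ν) :
    ∃ E : Set Ω, #E ≤ ν ∧
      ((∀ A ⊆ Eᶜ, #A ≤ ν → A ∈ I) ∨ (∀ A ⊆ Eᶜ, A ∈ I → #A < ν)) := by
  have htop : near (St I) ν hν = ⊤ := by
    by_contra hne
    have hle : St I ≤ near (St I) ν hν := fun g hg => ⟨g, hg, by simp⟩
    have heq := coatom_eq hG hle hne
    refine hB1 (hI.of_le (D := A1 ∪ B1) ?_ hA1 subset_union_left subset_union_right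
      (by rw [hA1', hB1']))
    rw [← heq]
    intro g hg
    refine ⟨1, (St I).one_mem, sub_le (fun x hx => ?_) (union_le hν hA1'.le hB1'.le)⟩
    by_contra hx'
    exact hx (hg x hx').symm
  by_contra hcon
  push Not at hcon
  let Q : Set Ω → Prop := fun C => #C ≤ ν ∧ ∃ B ⊆ C, B ∈ I ∧ #B = ν ∧ C \ B ∉ I
  let S : Set (Set (Set Ω)) := {m | m.PairwiseDisjoint id ∧ ∀ C ∈ m, Q C}
  obtain ⟨m, hm⟩ := zorn_subset S fun c hc hch =>
    ⟨⋃₀ c, ⟨(pairwise_sUnion hch.directedOn).2 fun a ha => (hc ha).1,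
      fun C ⟨a, ha, hC⟩ => (hc ha).2 C hC⟩, fun s hs => subset_sUnion_of_mem hs⟩
  have hbig : ν < #m := by
    by_contra hle
    rw [not_lt] at hle
    have hE : #(⋃₀ m : Set Ω) ≤ ν := by
      refine (Cardinal.mk_sUnion_le m).trans ?_
      have : ⨆ s : m, #(s : Set Ω) ≤ ν := ciSup_le' fun s => (hm.prop.2 s s.2).1
      exact (mul_le_mul' hle this).trans (Cardinal.mul_eq_self hν).le
    obtain ⟨⟨A, hA, hA2, hA3⟩, -⟩ := hcon _ hE
    obtain ⟨-, B, hB, hB2, hB3⟩ := hcon _ (union_le hν hE hA2)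
    obtain ⟨B', hB', hB4⟩ := exists_sub hB3
    have hd : ∀ x ∈ A ∪ B', x ∉ ⋃₀ m := by
      rintro x (hx | hx)
      · exact hA hx
      · exact fun h' => hB (hB' hx) (Or.inl h')
    have hQ : Q (A ∪ B') := by
      refine ⟨union_le hν hA2 hB4.le, B', subset_union_right, hI.mono hB' hB2, hB4, fun h' => ?_⟩
      refine hA3 (hI.mono ?_ h')
      exact fun x hx => ⟨Or.inl hx, fun h'' => hB (hB' h'') (Or.inr hx)⟩
    have hS : insert (A ∪ B') m ∈ S := by
      refine ⟨hm.prop.1.insert fun C hC _ => ?_, ?_⟩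
      · exact disjoint_left.2 fun x hx hx2 => hd x hx ⟨C, hC, hx2⟩
      · rintro C (rfl | hC)
        · exact hQ
        · exact hm.prop.2 C hC
    have hin : A ∪ B' ∈ m := hm.le_of_ge hS (subset_insert _ _) (mem_insert _ _)
    apply hA3
    have : A = ∅ := eq_empty_of_forall_notMem fun x hx => hA hx ⟨_, hin, Or.inl hx⟩
    rw [this]; exact hI.empty
  have hch : ∀ C : m, ∃ g ∈ Supp (C : Set Ω), ∃ D ⊆ (C : Set Ω), D ∉ I ∧ g '' D ∈ I := by
    intro C
    obtain ⟨h1, B, hB, h2, h3, h4⟩ := hm.prop.2 C C.2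
    have h5 : #((C : Set Ω) \ B : Set Ω) = ν :=
      le_antisymm (sub_le sdiff_subset h1) (not_lt.1 fun h' => h4 (small _ h'))
    obtain ⟨g, hg, hg'⟩ := exists_move (U := C) (A := C \ B) (B := B) sdiff_subset hB
      (h5.trans h3.symm) (by rw [sdiff_sdiff_cancel_left hB, h3, h5])
    exact ⟨g, hg, _, sdiff_subset, h4, hg'.symm ▸ h2⟩
  choose G hG1 D hD1 hD2 hD3 using hch
  obtain ⟨h, hh⟩ := exists_glue hm.prop.1 G hG1
  obtain ⟨g, hg, hZ⟩ : h ∈ near (St I) ν hν := by rw [htop]; trivial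
  have hex : ∃ C : m, ∀ x ∈ (C : Set Ω), g x = h x := by
    by_contra hc
    push Not at hc
    choose z hz1 hz2 using hc
    have hinj : Function.Injective fun C : m => (⟨z C, hz2 C⟩ : {x | g x ≠ h x}) := by
      intro C C' hCC'
      have e : z C = z C' := congrArg Subtype.val hCC'
      apply Subtype.ext
      by_contra hne
      exact disjoint_left.1 (hm.prop.1 C.2 C'.2 hne) (hz1 C) (e ▸ hz1 C')
    exact absurd ((Cardinal.mk_le_of_injective hinj).trans hZ) (not_le.2 hbig)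
  obtain ⟨C, hC⟩ := hex
  apply hD2 C
  apply St.of_img hg
  have : g '' D C = G C '' D C := image_congr fun x hx => (hC x (hD1 C hx)).trans (hh C (hD1 C hx))
  rw [this]; exact hD3 C

end Pool.Agent.P.MP_60ae12_al
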